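import Pool.Agent.H476Z.ZS.Key2

/-! Sign patterns of coefficients and a base point for the continuity argument. -/

open Polynomial

set_option maxHeartbeats 400000

namespace Pool.Agent.H476Z.ZS

lemma l1_mul_coeff_zero (a : ℝ) (Q : ℝ[X]) : (l1 a * Q).coeff 0 = Q.coeff 0 := by
  simp [l1, lin]

lemma l1_mul_coeff_succ (a : ℝ) (Q : ℝ[X]) (j : ℕ) :
    (l1 a * Q).coeff (j + 1) = Q.coeff (j + 1) + a * Q.coeff j := by
  simp only [l1, lin, map_one, add_mul, one_mul, mul_assoc, coeff_add, coeff_C_mul, coeff_X_mul]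

lemma prod_l1_coeff_zero (t : Multiset ℝ) : (t.map l1).prod.coeff 0 = 1 := by
  induction t using Multiset.induction_on with
  | empty => simp
  | cons a t ih => rw [Multiset.map_cons, Multiset.prod_cons, l1_mul_coeff_zero, ih]

lemma prod_l1_coeff_one (t : Multiset ℝ) : (t.map l1).prod.coeff 1 = t.sum := by
  induction t using Multiset.induction_on with
  | empty => simp [coeff_one]
  | cons a t ih =>
    rw [Multiset.map_cons, Multiset.prod_cons, l1_mul_coeff_succ, zero_add, ih, prod_l1_coeff_zero,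
      Multiset.sum_cons]
    ring

lemma prod_l1_pattern (t : Multiset ℝ) (ht : ∀ x ∈ t, 0 < x) :
    (∀ j, 0 ≤ (t.map l1).prod.coeff j) ∧ (∀ j ≤ Multiset.card t, 0 < (t.map l1).prod.coeff j) ∧
    (∀ j, (t.map l1).prod.coeff (j + 1) ≤ t.sum * (t.map l1).prod.coeff j) ∧
    (∀ j, j + 1 ≤ Multiset.card t →
      (t.map l1).prod.coeff (j + 2) < t.sum * (t.map l1).prod.coeff (j + 1)) := by
  induction t using Multiset.induction_on with
  | empty =>
    refine ⟨fun j => ?_, fun j hj => ?_, fun j => ?_, fun j hj => ?_⟩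
    · simp only [Multiset.map_zero, Multiset.prod_zero, coeff_one]; split_ifs <;> norm_num
    · simp at hj; simp [hj]
    · simp [coeff_one]
    · simp at hj
  | cons a t ih =>
    obtain ⟨h1, h2, h3, -⟩ := ih (fun x hx => ht x (Multiset.mem_cons_of_mem hx))
    have ha := ht a (Multiset.mem_cons_self _ _)
    have hs : 0 ≤ t.sum := Multiset.sum_nonneg (fun x hx => (ht x (Multiset.mem_cons_of_mem hx)).le)
    simp only [Multiset.map_cons, Multiset.prod_cons, Multiset.sum_cons, Multiset.card_cons]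
    refine ⟨fun j => ?_, fun j hj => ?_, fun j => ?_, fun j hj => ?_⟩
    · rcases j with _ | j
      · rw [l1_mul_coeff_zero]; exact h1 0
      · rw [l1_mul_coeff_succ]; have := h1 j; have := h1 (j + 1); positivity
    · rcases j with _ | j
      · rw [l1_mul_coeff_zero]; exact h2 0 (Nat.zero_le _)
      · rw [l1_mul_coeff_succ]; have := h2 j (by omega); have := h1 (j + 1); positivity
    · rcases j with _ | j
      · rw [l1_mul_coeff_zero, l1_mul_coeff_succ, zero_add, prod_l1_coeff_one, prod_l1_coeff_zero]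
        linarith
      · rw [l1_mul_coeff_succ, l1_mul_coeff_succ]
        have e1 := h3 (j + 1)
        have e2 := mul_nonneg (mul_nonneg ha.le hs) (h1 j)
        have e3 := mul_nonneg (mul_nonneg ha.le ha.le) (h1 j)
        nlinarith
    · rw [l1_mul_coeff_succ, l1_mul_coeff_succ]
      have e1 := h3 (j + 1)
      have e2 := mul_nonneg (mul_nonneg ha.le hs) (h1 j)
      have e3 := mul_pos (mul_pos ha ha) (h2 j (by omega))
      nlinarith

/-- The zero-sum polynomial with reciprocal roots `t` and `-∑ t`. -/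
noncomputable def Ft (t : Multiset ℝ) : ℝ[X] := l1 (-t.sum) * (t.map l1).prod

lemma Ft_eq (t : Multiset ℝ) : Ft t = (((-t.sum) ::ₘ t).map l1).prod := by
  simp [Ft]

lemma Ft_coeff_zero (t : Multiset ℝ) : (Ft t).coeff 0 = 1 := by
  rw [Ft_eq, prod_l1_coeff_zero]

lemma Ft_coeff_one (t : Multiset ℝ) : (Ft t).coeff 1 = 0 := by
  rw [Ft_eq, prod_l1_coeff_one]; simp

lemma Ft_natDegree (t : Multiset ℝ) : (Ft t).natDegree ≤ Multiset.card t + 1 := by
  rw [Ft_eq]; simpa using natDegree_prod_l1 ((-t.sum) ::ₘ t)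

lemma Ft_coeff_neg (t : Multiset ℝ) (ht : ∀ x ∈ t, 0 < x) (j : ℕ) (h2 : 2 ≤ j)
    (hj : j ≤ Multiset.card t + 1) : (Ft t).coeff j < 0 := by
  obtain ⟨k, rfl⟩ : ∃ k, j = k + 2 := ⟨j - 2, by omega⟩
  have := (prod_l1_pattern t ht).2.2.2 k (by omega)
  rw [Ft, l1_mul_coeff_succ]
  linarith

lemma Ft_coeff_ne (t : Multiset ℝ) (ht : ∀ x ∈ t, 0 < x) (j : ℕ) (h1 : j ≠ 1)
    (hj : j ≤ Multiset.card t + 1) : (Ft t).coeff j ≠ 0 := by
  rcases Nat.eq_zero_or_pos j with rfl | h
  · rw [Ft_coeff_zero]; norm_num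
  · exact (Ft_coeff_neg t ht j (by omega) hj).ne

lemma G0_eq (n : ℕ) : G0 n = Ft (Multiset.replicate (n - 1) 1) := by
  simp only [G0, Ft, Multiset.sum_replicate, Multiset.map_replicate, Multiset.prod_replicate,
    nsmul_eq_mul, mul_one, l1, lin, map_one, map_neg]
  ring

lemma G0_coeff_one (n : ℕ) : (G0 n).coeff 1 = 0 := by rw [G0_eq, Ft_coeff_one]

lemma G0_coeff_neg {n j : ℕ} (h2 : 2 ≤ j) (hj : j ≤ n) : (G0 n).coeff j < 0 := by
  rw [G0_eq]
  refine Ft_coeff_neg _ (fun x hx => ?_) j h2 (by simp; omega)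
  rw [Multiset.eq_of_mem_replicate hx]; norm_num

lemma G0_coeff_ne {n j : ℕ} (h1 : j ≠ 1) (hj : j ≤ n) : (G0 n).coeff j ≠ 0 := by
  rcases Nat.eq_zero_or_pos j with rfl | h
  · rw [G0_coeff_zero]; norm_num
  · exact (G0_coeff_neg (by omega) hj).ne

lemma G0_splits (n : ℕ) : (G0 n).Splits := by rw [G0_eq, Ft_eq]; exact splits_prod_l1 _

/-- The multipliers sending `G0 n` to `F`. -/
noncomputable def gam (n : ℕ) (F : ℝ[X]) (j : ℕ) : ℝ := F.coeff j / (G0 n).coeff j

lemma Hm_gam {n : ℕ} (hn : 1 ≤ n) {F : ℝ[X]} (hd : F.natDegree ≤ n) (h1 : F.coeff 1 = 0) :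
    Hm (gam n F) (G0 n) = F := by
  ext j
  rw [Hm_coeff, gam]
  by_cases hj : j ≤ n
  · by_cases hj1 : j = 1
    · rw [hj1, h1]; simp
    · exact div_mul_cancel₀ _ (G0_coeff_ne hj1 hj)
  · rw [coeff_eq_zero_of_natDegree_lt (by omega : F.natDegree < j)]; simp

lemma Hm_gam_Hm {n : ℕ} (γ : ℕ → ℝ) (c : ℝ) {F : ℝ[X]} (hF : Hm γ (G0 n) = C c * F) {G : ℝ[X]}
    (hd : G.natDegree ≤ n) (h1 : G.coeff 1 = 0) : Hm γ G = C c * Hm (gam n F) G := by
  ext j
  rw [coeff_C_mul, Hm_coeff, Hm_coeff, gam]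
  by_cases hj : j ≤ n
  · by_cases hj1 : j = 1
    · rw [hj1, h1]; simp
    · have h2 := congrArg (fun p => coeff p j) hF
      simp only [Hm_coeff, coeff_C_mul] at h2
      have h3 := G0_coeff_ne hj1 hj
      have h4 : γ j = c * (F.coeff j / (G0 n).coeff j) := by field_simp; linarith
      rw [h4]; ring
  · rw [coeff_eq_zero_of_natDegree_lt (by omega : G.natDegree < j)]; simp

lemma splits_derivative {p : ℝ[X]} (hp : p.Splits) : (derivative p).Splits := by
  rw [splits_iff_card_roots] at hp ⊢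
  have h1 := card_roots_le_derivative p
  have h2 := card_roots' (derivative p)
  have h3 := natDegree_derivative_le p
  omega

lemma Hm_pow_succ (k : ℕ) (G : ℝ[X]) : Hm (fun j => ((j : ℝ) + 1) ^ (k + 1)) G =
    derivative (X * Hm (fun j => ((j : ℝ) + 1) ^ k) G) := by
  ext j
  rw [coeff_derivative, coeff_X_mul, Hm_coeff, Hm_coeff]; ring

lemma splits_Hm_pow (k : ℕ) {G : ℝ[X]} (hG : G.Splits) :
    (Hm (fun j => ((j : ℝ) + 1) ^ k) G).Splits := by
  induction k with
  | zero =>
    have : Hm (fun j => ((j : ℝ) + 1) ^ 0) G = G := by ext j; rw [Hm_coeff]; simp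
    rwa [this]
  | succ k ih => rw [Hm_pow_succ]; exact splits_derivative (Splits.X.mul ih)

lemma distinct_step {p : ℝ[X]} (hp : p.Splits) (h0 : p.coeff 0 ≠ 0) :
    min p.natDegree (p.roots.toFinset.card + 1) ≤ (derivative (X * p)).roots.toFinset.card := by
  classical
  have hp0 : p ≠ 0 := by rintro rfl; simp at h0
  have hX : X * p ≠ 0 := mul_ne_zero X_ne_zero hp0
  have h1 : (X * p).roots.toFinset.card = p.roots.toFinset.card + 1 := by
    rw [roots_mul hX, roots_X, Multiset.singleton_add, Multiset.toFinset_cons,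
      Finset.card_insert_of_notMem]
    rw [Multiset.mem_toFinset, mem_roots hp0, IsRoot.def, ← coeff_zero_eq_eval_zero]
    exact h0
  have h2 := card_roots_toFinset_le_card_roots_derivative_sdiff_roots_succ (X * p)
  have h3 := Finset.card_le_card (Finset.sdiff_subset (s := (derivative (X * p)).roots.toFinset)
    (t := (X * p).roots.toFinset))
  by_cases hnd : p.roots.Nodup
  · have h4 := Multiset.toFinset_card_of_nodup hnd
    have h5 := hp.natDegree_eq_card_roots
    omega
  · rw [Multiset.nodup_iff_count_le_one] at hnd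
    push Not at hnd
    obtain ⟨a, ha⟩ := hnd
    rw [count_roots, one_lt_rootMultiplicity_iff_isRoot hp0] at ha
    obtain ⟨ha1, ha2⟩ := ha
    have hd0 : derivative (X * p) ≠ 0 := by
      intro h
      have := congrArg (fun q => coeff q 0) h
      simp only [coeff_derivative, coeff_X_mul, coeff_zero] at this
      simp at this
      exact h0 this
    have h6 : a ∈ (derivative (X * p)).roots.toFinset := by
      rw [Multiset.mem_toFinset, mem_roots hd0, IsRoot.def]
      simp [ha1.eq_zero, ha2.eq_zero]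
    have h7 : a ∈ (X * p).roots.toFinset := by
      rw [Multiset.mem_toFinset, mem_roots hX, IsRoot.def]
      simp [ha1.eq_zero]
    have h8 : ((derivative (X * p)).roots.toFinset \ (X * p).roots.toFinset).card <
        (derivative (X * p)).roots.toFinset.card := by
      refine Finset.card_lt_card ⟨Finset.sdiff_subset, fun h => ?_⟩
      exact (Finset.mem_sdiff.1 (h h6)).2 h7
    omega

lemma distinct_Hm_pow {n : ℕ} (hn : 2 ≤ n) (k : ℕ) :
    min n k ≤ (Hm (fun j => ((j : ℝ) + 1) ^ k) (G0 n)).roots.toFinset.card := by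
  induction k with
  | zero => simp
  | succ k ih =>
    rw [Hm_pow_succ]
    have h1 := distinct_step (splits_Hm_pow k (G0_splits n)) (by
      rw [Hm_coeff, G0_coeff_zero]; positivity)
    have h2 : n ≤ (Hm (fun j => ((j : ℝ) + 1) ^ k) (G0 n)).natDegree := by
      refine le_natDegree_of_ne_zero ?_
      rw [Hm_coeff]
      exact mul_ne_zero (by positivity) (G0_coeff_ne (by omega) le_rfl)
    omega

lemma eq_prod_l1 {p : ℝ[X]} (hp : p.Splits) (h0 : p.coeff 0 ≠ 0) :
    p = C (p.coeff 0) * ((p.roots.map (fun ρ => -ρ⁻¹)).map l1).prod := by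
  have hp0 : p ≠ 0 := by rintro rfl; simp at h0
  have h1 : p = C (p.leadingCoeff * (p.roots.map (fun ρ => -ρ)).prod) *
      ((p.roots.map (fun ρ => -ρ⁻¹)).map l1).prod := by
    conv_lhs => rw [hp.eq_prod_roots]
    rw [map_mul, mul_assoc, map_multiset_prod, Multiset.map_map, Multiset.map_map,
      ← Multiset.prod_map_mul]
    congr 2
    refine Multiset.map_congr rfl (fun ρ hρ => ?_)
    have hρ0 : ρ ≠ 0 := by
      rintro rfl
      exact h0 (by rw [coeff_zero_eq_eval_zero]; exact (mem_roots'.1 hρ).2)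
    simp only [Function.comp_apply, l1, lin, map_one, map_neg]
    have : (C ρ * C ρ⁻¹ : ℝ[X]) = 1 := by rw [← map_mul, mul_inv_cancel₀ hρ0, map_one]
    linear_combination (-X) * this
  have h2 := congrArg (fun q => coeff q 0) h1
  simp only [coeff_C_mul, prod_l1_coeff_zero, mul_one] at h2
  rw [h2]; exact h1

lemma pos_root_unique {n : ℕ} (hn : 2 ≤ n) {F : ℝ[X]} (hd : F.natDegree ≤ n) (h1 : F.coeff 1 = 0)
    (hneg : ∀ j, 2 ≤ j → j ≤ n → F.coeff j < 0) {x y : ℝ} (hx : 0 < x) (hxy : x < y) :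
    F.eval y < F.eval x := by
  rw [eval_eq_sum_range' (Nat.lt_succ_of_le hd), eval_eq_sum_range' (Nat.lt_succ_of_le hd)]
  refine Finset.sum_lt_sum (fun j hj => ?_) ⟨2, by simp; omega, ?_⟩
  · rcases j with _ | _ | j
    · simp
    · simp [h1]
    · have := hneg (j + 2) (by omega) (by simp at hj; omega)
      exact mul_le_mul_of_nonpos_left (pow_le_pow_left₀ hx.le hxy.le _) this.le
  · exact mul_lt_mul_of_neg_left (pow_lt_pow_left₀ hxy hx.le (by norm_num)) (hneg 2 le_rfl hn)

/-- A base point: distinct positive reciprocal roots whose multipliers preserve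
real-rootedness. -/
lemma base {n : ℕ} (hn : 2 ≤ n) : ∃ t : Multiset ℝ, Multiset.card t + 1 = n ∧ t.Nodup ∧
    (∀ x ∈ t, 0 < x) ∧ Pres n (gam n (Ft t)) := by
  classical
  set F := Hm (fun j => ((j : ℝ) + 1) ^ n) (G0 n) with hF
  have hs : F.Splits := splits_Hm_pow n (G0_splits n)
  have h0 : F.coeff 0 = 1 := by rw [hF, Hm_coeff, G0_coeff_zero]; simp
  have h1 : F.coeff 1 = 0 := by rw [hF, Hm_coeff, G0_coeff_one, mul_zero]
  have hneg : ∀ j, 2 ≤ j → j ≤ n → F.coeff j < 0 := by
    intro j h2 hj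
    rw [hF, Hm_coeff]
    exact mul_neg_of_pos_of_neg (by positivity) (G0_coeff_neg h2 hj)
  have hd : F.natDegree ≤ n := (Hm_natDegree_le _ _).trans (natDegree_G0 (by omega))
  have hF0 : F ≠ 0 := by rintro h; rw [h] at h0; simp at h0
  have h2 := distinct_Hm_pow hn n
  rw [min_self, ← hF] at h2
  have h3 := Multiset.toFinset_card_le F.roots
  have h4 := card_roots' F
  have hnd : F.roots.Nodup := Multiset.toFinset_card_eq_card_iff_nodup.1 (by omega)
  have h5 := eq_prod_l1 hs (by rw [h0]; norm_num)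
  rw [h0, map_one, one_mul] at h5
  have hr0 : ∀ ρ ∈ F.roots, ρ ≠ 0 := by
    rintro ρ hρ rfl
    have := (mem_roots'.1 hρ).2
    rw [IsRoot.def, ← coeff_zero_eq_eval_zero, h0] at this
    norm_num at this
  have hsum : (F.roots.map (fun ρ => -ρ⁻¹)).sum = 0 := by
    rw [← prod_l1_coeff_one, ← h5, h1]
  have hex : ∃ ρ ∈ F.roots, 0 < ρ := by
    by_contra hcon
    push Not at hcon
    have : 0 < (F.roots.map (fun ρ => -ρ⁻¹)).sum := by
      have hpos : ∀ x ∈ F.roots.map (fun ρ => -ρ⁻¹), 0 < x := by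
        intro x hx
        obtain ⟨ρ, hρ, rfl⟩ := Multiset.mem_map.1 hx
        have := lt_of_le_of_ne (hcon ρ hρ) (hr0 ρ hρ)
        exact neg_pos.2 (inv_lt_zero.2 this)
      have hne : F.roots.map (fun ρ => -ρ⁻¹) ≠ 0 := by
        intro h
        have := congrArg Multiset.card h
        simp only [Multiset.card_map, Multiset.card_zero] at this
        omega
      obtain ⟨x, hx⟩ := Multiset.exists_mem_of_ne_zero hne
      exact (hpos x hx).trans_le (Multiset.single_le_sum (fun y hy => (hpos y hy).le) x hx)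
    linarith
  obtain ⟨ρ, hρ, hρ0⟩ := hex
  obtain ⟨R, hR⟩ := Multiset.exists_cons_of_mem hρ
  have hRn : (ρ ::ₘ R).Nodup := hR ▸ hnd
  obtain ⟨hρR, hRn'⟩ := Multiset.nodup_cons.1 hRn
  have hRneg : ∀ x ∈ R, x < 0 := by
    intro x hx
    have hx' : x ∈ F.roots := hR ▸ Multiset.mem_cons_of_mem hx
    by_contra hcon
    have hx0 : 0 < x := lt_of_le_of_ne (not_lt.1 hcon) (hr0 x hx').symm
    have e1 : F.eval x = 0 := (mem_roots'.1 hx').2
    have e2 : F.eval ρ = 0 := (mem_roots'.1 hρ).2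
    rcases lt_trichotomy x ρ with h | h | h
    · have := pos_root_unique hn hd h1 hneg hx0 h; linarith
    · exact hρR (h ▸ hx)
    · have := pos_root_unique hn hd h1 hneg hρ0 h; linarith
  have hFt : F = Ft (R.map (fun ρ => -ρ⁻¹)) := by
    rw [hR, Multiset.map_cons, Multiset.sum_cons] at hsum
    rw [Ft_eq]
    conv_lhs => rw [h5, hR, Multiset.map_cons]
    congr 3
    linarith
  refine ⟨R.map (fun ρ => -ρ⁻¹), ?_, ?_, ?_, ?_⟩
  · have := congrArg Multiset.card hR
    simp only [Multiset.card_cons, Multiset.card_map] at this ⊢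
    omega
  · refine hRn'.map (fun a b hab => ?_)
    simpa using hab
  · intro x hx
    obtain ⟨y, hy, rfl⟩ := Multiset.mem_map.1 hx
    exact neg_pos.2 (inv_lt_zero.2 (hRneg y hy))
  · intro G hGd hG1 hGs
    have := Hm_gam_Hm (n := n) (fun j => ((j : ℝ) + 1) ^ n) 1 (F := F) (by simp [hF]) hGd hG1
    rw [map_one, one_mul] at this
    rw [← hFt, ← this]
    exact splits_Hm_pow n hGs

end Pool.Agent.H476Z.ZS
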