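import Mathlib

/-! Elementary bounds for real-rooted polynomials: closedness and a pencil lemma. -/

open Polynomial

namespace Pool.Agent.H476Z.ZS

lemma prod_bound (s : Multiset ℝ) (u w : ℂ) (M : ℝ) (hM : 0 ≤ M)
    (h : ∀ ρ ∈ s, 1 ≤ M * ‖u - (ρ : ℂ)‖) :
    ‖(s.map (fun ρ : ℝ => w - (ρ : ℂ))).prod‖ ≤
      ‖(s.map (fun ρ : ℝ => u - (ρ : ℂ))).prod‖ * (1 + ‖w - u‖ * M) ^ Multiset.card s := by
  induction s using Multiset.induction_on with
  | empty => simp
  | cons a s ih =>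
    have ih' := ih (fun ρ hρ => h ρ (Multiset.mem_cons_of_mem hρ))
    have ha := h a (Multiset.mem_cons_self _ _)
    simp only [Multiset.map_cons, Multiset.prod_cons, norm_mul, Multiset.card_cons, pow_succ]
    have h1 : ‖w - (a : ℂ)‖ ≤ ‖u - (a : ℂ)‖ * (1 + ‖w - u‖ * M) := by
      have h2 : ‖w - (a : ℂ)‖ ≤ ‖w - u‖ + ‖u - (a : ℂ)‖ := by
        have : w - (a : ℂ) = (w - u) + (u - a) := by ring
        rw [this]; exact norm_add_le _ _
      have h3 : ‖w - u‖ * 1 ≤ ‖w - u‖ * (M * ‖u - (a : ℂ)‖) :=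
        mul_le_mul_of_nonneg_left ha (norm_nonneg _)
      nlinarith
    calc ‖w - (a : ℂ)‖ * ‖(s.map (fun ρ : ℝ => w - (ρ : ℂ))).prod‖
        ≤ (‖u - (a : ℂ)‖ * (1 + ‖w - u‖ * M)) *
          (‖(s.map (fun ρ : ℝ => u - (ρ : ℂ))).prod‖ * (1 + ‖w - u‖ * M) ^ Multiset.card s) :=
          mul_le_mul h1 ih' (norm_nonneg _) (by positivity)
      _ = _ := by ring

lemma aeval_splits {p : ℝ[X]} (hp : p.Splits) (z : ℂ) :
    aeval z p = (p.leadingCoeff : ℂ) * (p.roots.map (fun ρ : ℝ => z - (ρ : ℂ))).prod := by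
  conv_lhs => rw [hp.eq_prod_roots]
  rw [map_mul, aeval_C, map_multiset_prod, Multiset.map_map]
  simp

lemma splits_bound {p : ℝ[X]} (hp : p.Splits) {n : ℕ} (hn : p.natDegree ≤ n) (u w : ℂ) (M : ℝ)
    (hM : 0 ≤ M) (h : ∀ ρ ∈ p.roots, 1 ≤ M * ‖u - (ρ : ℂ)‖) :
    ‖aeval w p‖ ≤ ‖aeval u p‖ * (1 + ‖w - u‖ * M) ^ n := by
  rw [aeval_splits hp, aeval_splits hp, norm_mul, norm_mul, mul_assoc]
  refine mul_le_mul_of_nonneg_left ((prod_bound _ u w M hM h).trans ?_) (norm_nonneg _)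
  refine mul_le_mul_of_nonneg_left ?_ (norm_nonneg _)
  refine pow_le_pow_right₀ (by have := norm_nonneg (w - u); nlinarith) ?_
  rw [← hp.natDegree_eq_card_roots]; exact hn

lemma splits_of_no_nonreal {p : ℝ[X]} (h : ∀ u : ℂ, u.im ≠ 0 → aeval u p ≠ 0) : p.Splits := by
  refine Splits.of_splits_map (algebraMap ℝ ℂ) (IsAlgClosed.splits _) ?_
  intro a ha
  have h1 : aeval a p = 0 := by
    have := (mem_roots'.1 ha).2
    rwa [IsRoot.def, eval_map_algebraMap] at this
  have h2 : a.im = 0 := by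
    by_contra hne; exact h a hne h1
  exact ⟨a.re, by apply Complex.ext <;> simp [h2]⟩

lemma aeval_ne_zero_of_splits {p : ℝ[X]} (hp : p.Splits) (h0 : p ≠ 0) {u : ℂ} (hu : u.im ≠ 0) :
    aeval u p ≠ 0 := by
  rw [aeval_splits hp]
  refine mul_ne_zero (by simpa using h0) (Multiset.prod_ne_zero ?_)
  intro hm
  obtain ⟨ρ, -, hρ⟩ := Multiset.mem_map.1 hm
  apply hu
  have : u = (ρ : ℂ) := sub_eq_zero.1 hρ
  rw [this]; simp

lemma continuous_aeval {T : Type*} [TopologicalSpace T] (P : T → ℝ[X]) (n : ℕ)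
    (hn : ∀ t, (P t).natDegree ≤ n) (hc : ∀ j, Continuous fun t => (P t).coeff j)
    (z : T → ℂ) (hz : Continuous z) : Continuous fun t => aeval (z t) (P t) := by
  have : (fun t => aeval (z t) (P t)) =
      fun t => ∑ j ∈ Finset.range (n + 1), (((P t).coeff j : ℝ) : ℂ) * z t ^ j := by
    funext t
    rw [aeval_eq_sum_range' (Nat.lt_succ_of_le (hn t))]
    simp
  rw [this]
  refine continuous_finsetSum _ (fun j _ => ?_)
  exact (Complex.continuous_ofReal.comp (hc j)).mul (hz.pow j)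

lemma isClosed_splits {T : Type*} [TopologicalSpace T] (P : T → ℝ[X]) (n : ℕ)
    (hn : ∀ t, (P t).natDegree ≤ n) (hc : ∀ j, Continuous fun t => (P t).coeff j) :
    IsClosed {t | (P t).Splits} := by
  have : {t | (P t).Splits} = ⋂ u : ℂ, ⋂ _ : u.im ≠ 0, ⋂ w : ℂ,
      {t | ‖aeval w (P t)‖ ≤ ‖aeval u (P t)‖ * (1 + ‖w - u‖ * |u.im|⁻¹) ^ n} := by
    ext t
    simp only [Set.mem_ofPred_eq, Set.mem_iInter]
    constructor
    · intro hp u hu w
      refine splits_bound hp (hn t) u w _ (by positivity) (fun ρ _ => ?_)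
      have h1 : |u.im| ≤ ‖u - (ρ : ℂ)‖ := by
        have := Complex.abs_im_le_norm (u - (ρ : ℂ))
        simpa using this
      have h2 : 0 < |u.im| := abs_pos.2 hu
      rw [inv_mul_eq_div, le_div_iff₀ h2]; linarith
    · intro h
      by_cases h0 : P t = 0
      · rw [h0]; exact Splits.zero
      refine splits_of_no_nonreal (fun u hu hz => h0 ?_)
      have h1 : ∀ w : ℂ, aeval w (P t) = 0 := by
        intro w
        have := h u hu w
        rw [hz] at this
        simpa using this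
      apply Polynomial.funext
      intro r
      have := h1 (r : ℂ)
      rw [show (r : ℂ) = algebraMap ℝ ℂ r from rfl, aeval_algebraMap_apply] at this
      simpa using this
  rw [this]
  refine isClosed_iInter (fun u => isClosed_iInter (fun _ => isClosed_iInter (fun w => ?_)))
  exact isClosed_le (continuous_aeval P n hn hc _ continuous_const).norm
    ((continuous_aeval P n hn hc _ continuous_const).norm.mul continuous_const)

lemma laguerre_prod (s : Multiset ℝ) (x : ℝ) (h : ∀ ρ ∈ s, x - ρ ≠ 0) :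
    let q := (s.map (fun ρ => X - C ρ)).prod
    (derivative q).eval x = q.eval x * (s.map (fun ρ => (x - ρ)⁻¹)).sum ∧
    ((derivative q).eval x) ^ 2 - q.eval x * (derivative (derivative q)).eval x =
      (q.eval x) ^ 2 * (s.map (fun ρ => ((x - ρ)⁻¹) ^ 2)).sum := by
  induction s using Multiset.induction_on with
  | empty => simp
  | cons a s ih =>
    obtain ⟨h1, h2⟩ := ih (fun ρ hρ => h ρ (Multiset.mem_cons_of_mem hρ))
    have ha := h a (Multiset.mem_cons_self _ _)
    simp only [Multiset.map_cons, Multiset.prod_cons, Multiset.sum_cons, derivative_mul,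
      derivative_sub, derivative_X, derivative_C, sub_zero, one_mul, eval_add, eval_mul, eval_sub,
      eval_X, eval_C, map_add] at h1 h2 ⊢
    constructor
    · rw [h1]; field_simp
    · have h3 : (x - a) * (x - a)⁻¹ = 1 := mul_inv_cancel₀ ha
      linear_combination (x - a) ^ 2 * h2 -
        (eval x (Multiset.map (fun ρ => X - C ρ) s).prod) ^ 2 * ((x - a) * (x - a)⁻¹ + 1) * h3

lemma laguerre_root {p : ℝ[X]} (hp : p.Splits) (x : ℝ) (hx : p.eval x ≠ 0) (K : ℝ)
    (hK : ((derivative p).eval x) ^ 2 - p.eval x * (derivative (derivative p)).eval x ≤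
      (p.eval x) ^ 2 * K) : ∀ ρ ∈ p.roots, 1 ≤ √K * ‖(x : ℂ) - (ρ : ℂ)‖ := by
  intro ρ hρ
  have hne : ∀ ρ ∈ p.roots, x - ρ ≠ 0 := by
    intro ρ hρ h
    have : x = ρ := sub_eq_zero.1 h
    exact hx (this ▸ (mem_roots'.1 hρ).2)
  obtain ⟨-, h2⟩ := laguerre_prod p.roots x hne
  have e := hp.eq_prod_roots
  set q := (p.roots.map (fun ρ => X - C ρ)).prod
  set c := p.leadingCoeff
  have e0 : p.eval x = c * q.eval x := by conv_lhs => rw [e]; simp
  have e1 : (derivative p).eval x = c * (derivative q).eval x := by conv_lhs => rw [e]; simp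
  have e2 : (derivative (derivative p)).eval x = c * (derivative (derivative q)).eval x := by
    conv_lhs => rw [e]; simp
  have h3 : (p.eval x) ^ 2 * (p.roots.map (fun ρ => ((x - ρ)⁻¹) ^ 2)).sum ≤ (p.eval x) ^ 2 * K := by
    refine le_trans (le_of_eq ?_) hK
    rw [e0, e1, e2]; linear_combination (-c ^ 2) * h2
  have h4 : (p.roots.map (fun ρ => ((x - ρ)⁻¹) ^ 2)).sum ≤ K :=
    le_of_mul_le_mul_left h3 (by positivity)
  have h5 : ((x - ρ)⁻¹) ^ 2 ≤ K := by
    refine le_trans ?_ h4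
    refine Multiset.single_le_sum ?_ _ (Multiset.mem_map_of_mem _ hρ)
    intro y hy
    obtain ⟨z, -, rfl⟩ := Multiset.mem_map.1 hy
    positivity
  have h6 : |(x - ρ)⁻¹| ≤ √K := Real.abs_le_sqrt h5
  have h7 : ‖(x : ℂ) - (ρ : ℂ)‖ = |x - ρ| := by
    rw [← Complex.ofReal_sub, Complex.norm_real, Real.norm_eq_abs]
  rw [h7]
  have h8 : 0 < |x - ρ| := abs_pos.2 (hne ρ hρ)
  rw [abs_inv] at h6
  calc (1 : ℝ) = |x - ρ|⁻¹ * |x - ρ| := (inv_mul_cancel₀ h8.ne').symm
    _ ≤ _ := mul_le_mul_of_nonneg_right h6 h8.le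

/-- If `H` has a multiple root at `1` and `H - δ H₁` is real-rooted for all small `δ > 0`, then
`H₁(1) ≠ 0` forces `H₁(1) H''(1) > 0`. -/
lemma pencil {H H₁ : ℝ[X]} (h0 : H ≠ 0) (h1 : H.eval 1 = 0) (h2 : (derivative H).eval 1 = 0)
    {ε : ℝ} (hε : 0 < ε) (hs : ∀ δ, 0 < δ → δ < ε → (H - C δ * H₁).Splits)
    (hh : H₁.eval 1 ≠ 0) : 0 < H₁.eval 1 * (derivative (derivative H)).eval 1 := by
  by_contra hcon
  push Not at hcon
  apply h0
  set h := H₁.eval 1
  set h' := (derivative H₁).eval 1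
  set h'' := (derivative (derivative H₁)).eval 1
  set K := (h' ^ 2 - h * h'') / h ^ 2
  set n := max H.natDegree H₁.natDegree
  apply Polynomial.funext
  intro w
  have key : ∀ δ, 0 < δ → δ < ε →
      |H.eval w - δ * H₁.eval w| ≤ δ * (|h| * (1 + |w - 1| * √K) ^ n) := by
    intro δ hδ hδε
    have hp := hs δ hδ hδε
    have e0 : (H - C δ * H₁).eval 1 = -(δ * h) := by simp [h1, h]
    have e1 : (derivative (H - C δ * H₁)).eval 1 = -(δ * h') := by simp [h2, h']
    have e2 : (derivative (derivative (H - C δ * H₁))).eval 1 =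
        (derivative (derivative H)).eval 1 - δ * h'' := by simp [h'']
    have hr := laguerre_root hp 1 (by rw [e0]; exact neg_ne_zero.2 (mul_ne_zero hδ.ne' hh)) K (by
      rw [e0, e1, e2]
      have : (-(δ * h)) ^ 2 * K = δ ^ 2 * (h' ^ 2 - h * h'') := by
        simp only [K]; field_simp
      rw [this]
      have := mul_nonpos_of_nonneg_of_nonpos hδ.le hcon
      nlinarith)
    have hd : (H - C δ * H₁).natDegree ≤ n := by
      refine (natDegree_sub_le _ _).trans (max_le (le_max_left _ _) ?_)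
      exact (natDegree_C_mul_le _ _).trans (le_max_right _ _)
    have hb := splits_bound hp hd ((1 : ℝ) : ℂ) (w : ℂ) _ (Real.sqrt_nonneg K) hr
    rw [show (w : ℂ) = algebraMap ℝ ℂ w from rfl, show ((1 : ℝ) : ℂ) = algebraMap ℝ ℂ 1 from rfl,
      aeval_algebraMap_apply, aeval_algebraMap_apply, ← map_sub] at hb
    simp only [Complex.coe_algebraMap, Complex.norm_real, Real.norm_eq_abs, coe_aeval_eq_eval] at hb
    rw [e0, abs_neg, abs_mul, abs_of_pos hδ, mul_assoc] at hb
    simpa using hb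
  rw [eval_zero]
  by_contra hw
  have hw' : 0 < |H.eval w| := abs_pos.2 hw
  set B := |H₁.eval w| + |h| * (1 + |w - 1| * √K) ^ n with hB
  have hB0 : 0 ≤ B := by positivity
  set δ := min (ε / 2) (|H.eval w| / (2 * (B + 1))) with hδ
  have hδ0 : 0 < δ := lt_min (by positivity) (by positivity)
  have hδ1 : δ < ε := lt_of_le_of_lt (min_le_left _ _) (by linarith)
  have hδ2 : δ * (2 * (B + 1)) ≤ |H.eval w| := by
    rw [← le_div_iff₀ (by positivity)]; exact min_le_right _ _
  have h3 := key δ hδ0 hδ1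
  have h4 : |H.eval w| ≤ |H.eval w - δ * H₁.eval w| + δ * |H₁.eval w| := by
    have := abs_add_le (H.eval w - δ * H₁.eval w) (δ * H₁.eval w)
    rw [sub_add_cancel, abs_mul, abs_of_pos hδ0] at this
    exact this
  have h5 : |H.eval w| ≤ δ * B := by rw [hB, mul_add]; linarith
  nlinarith

end Pool.Agent.H476Z.ZS
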