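import Pool.Agent.H476Z.ZS.Homotopy

/-! Translation to the variable `t` of the problem. -/

open Polynomial

set_option maxHeartbeats 400000

namespace Pool.Agent.H476Z.ZS

lemma split_signs (u : Multiset ℝ) :
    (u.map l1).prod = ((u.filter (0 < ·)).map l1).prod * ((u.filter (· < 0)).map l1).prod ∧
      u.sum = (u.filter (0 < ·)).sum + (u.filter (· < 0)).sum := by
  induction u using Multiset.induction_on with
  | empty => simp
  | cons a u ih =>
    obtain ⟨h1, h2⟩ := ih
    rw [Multiset.filter_cons, Multiset.filter_cons]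
    rcases lt_trichotomy a 0 with h | h | h
    · rw [if_neg (not_lt.2 h.le), if_pos h]
      simp only [Multiset.map_cons, Multiset.prod_cons, Multiset.sum_cons, Multiset.singleton_add,
        zero_add]
      rw [h1, h2]
      constructor <;> ring
    · subst h
      have : l1 0 = 1 := by simp [l1, lin]
      rw [if_neg (lt_irrefl _)]
      simp only [Multiset.map_cons, Multiset.prod_cons, Multiset.sum_cons, this, one_mul, zero_add]
      exact ⟨h1, h2⟩
    · rw [if_pos h, if_neg (not_lt.2 h.le)]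
      simp only [Multiset.map_cons, Multiset.prod_cons, Multiset.sum_cons, Multiset.singleton_add,
        zero_add]
      rw [h1, h2]
      constructor <;> ring

lemma pres_of_pattern {n : ℕ} (hn : 1 ≤ n) {γ : ℕ → ℝ} {c : ℝ} (hc : c ≠ 0) (u : Multiset ℝ)
    (hu : Hm γ (G0 n) = C c * (u.map l1).prod) (h1 : Multiset.card (u.filter (· < 0)) ≤ 1) :
    Pres n γ := by
  rcases eq_or_lt_of_le hn with rfl | hn2
  · intro G hd _ _
    exact Splits.of_natDegree_le_one ((Hm_natDegree_le _ _).trans hd)
  have hsum : u.sum = 0 := by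
    have := congrArg (fun p => coeff p 1) hu
    simp only [Hm_coeff, G0_coeff_one, mul_zero, coeff_C_mul, prod_l1_coeff_one] at this
    exact (mul_eq_zero.1 this.symm).resolve_left hc
  obtain ⟨e1, e2⟩ := split_signs u
  have hpos : ∀ x ∈ u.filter (0 < ·), 0 < x := fun x hx => (Multiset.mem_filter.1 hx).2
  generalize u.filter (0 < ·) = t at e1 e2 hpos
  have hl0 : l1 0 = 1 := by simp [l1, lin]
  have e3 : (u.map l1).prod = Ft t := by
    rw [e1, Ft, mul_comm]
    congr 1
    rcases Nat.le_one_iff_eq_zero_or_eq_one.1 h1 with h | h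
    · rw [Multiset.card_eq_zero] at h
      rw [h] at e2 ⊢
      have : t.sum = 0 := by simpa [hsum] using e2.symm
      simp [this, hl0]
    · obtain ⟨b, hb⟩ := Multiset.card_eq_one.1 h
      rw [hb] at e2 ⊢
      have : b = -t.sum := by simp only [Multiset.sum_singleton] at e2; linarith
      simp [this]
  rw [e3] at hu
  have hcard : Multiset.card t + 1 ≤ n := by
    rcases Nat.eq_zero_or_pos (Multiset.card t) with h | h
    · omega
    · have h2 : (Hm γ (G0 n)).coeff (Multiset.card t + 1) ≠ 0 := by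
        rw [hu, coeff_C_mul]
        exact mul_ne_zero hc (Ft_coeff_ne t hpos _ (by omega) le_rfl)
      exact (le_natDegree_of_ne_zero h2).trans ((Hm_natDegree_le _ _).trans (natDegree_G0 hn))
  have e4 : Ft t = Ft (t + Multiset.replicate (n - 1 - Multiset.card t) 0) := by
    simp [Ft, hl0]
  have hP := core (n := n) hn2 (t + Multiset.replicate (n - 1 - Multiset.card t) 0)
    (by simp; omega) (by
      intro x hx
      rcases Multiset.mem_add.1 hx with h | h
      · exact (hpos x h).le
      · rw [Multiset.eq_of_mem_replicate h])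
  intro G hd hG1 hG
  rw [Hm_gam_Hm γ c hu hd hG1, e4]
  exact (hP G hd hG1 hG).C_mul c

lemma reflect_lin (p : ℝ × ℝ) : reflect 1 (lin p) = lin p.swap := by
  have h1 : lin p = C p.1 * X ^ 0 + C p.2 * X ^ 1 := by simp [lin]
  rw [h1, reflect_add, reflect_C_mul_X_pow, reflect_C_mul_X_pow]
  simp [lin, add_comm]

lemma reflect_prod_lin (s : Multiset (ℝ × ℝ)) :
    reflect (Multiset.card s) (s.map lin).prod = ((s.map Prod.swap).map lin).prod := by
  induction s using Multiset.induction_on with
  | empty => simp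
  | cons a s ih =>
    simp only [Multiset.map_cons, Multiset.prod_cons, Multiset.card_cons]
    rw [add_comm, reflect_mul _ _ (natDegree_lin a) (natDegree_prod_lin s), ih, reflect_lin]

lemma splits_reflect {G : ℝ[X]} (hG : G.Splits) {N : ℕ} (hd : G.natDegree ≤ N) :
    (reflect N G).Splits := by
  obtain ⟨s, rfl, -, h⟩ := exists_pairs hG hd
  rw [h, reflect_C_mul, reflect_prod_lin]
  exact (splits_prod_lin _).C_mul _

lemma natDegree_reflect {G : ℝ[X]} {N : ℕ} (hd : G.natDegree ≤ N) :
    (reflect N G).natDegree ≤ N :=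
  natDegree_reflect_le.trans (max_le le_rfl hd)

lemma reflect_g0 {n : ℕ} (hn : 1 ≤ n) :
    reflect n ((G0 n).comp (C (-1) * X)) = (X - 1) ^ (n - 1) * (X + C ((n : ℝ) - 1)) := by
  have h := reflect_prod_lin (((1 : ℝ), (n : ℝ) - 1) ::ₘ Multiset.replicate (n - 1) (1, -1))
  have hc : Multiset.card (((1 : ℝ), (n : ℝ) - 1) ::ₘ
      Multiset.replicate (n - 1) ((1 : ℝ), (-1 : ℝ))) = n := by simp; omega
  rw [hc] at h
  simp only [Multiset.map_cons, Multiset.map_replicate, Multiset.prod_cons, Multiset.prod_replicate,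
    Prod.swap_prod_mk] at h
  have e1 : (G0 n).comp (C (-1) * X) = lin (1, (n : ℝ) - 1) * lin (1, -1) ^ (n - 1) := by
    simp only [G0, lin, mul_comp, pow_comp, add_comp, sub_comp, one_comp, X_comp, C_comp,
      Nat.cast_sub hn, Nat.cast_one, map_neg, map_one]
    ring
  rw [e1, h]
  simp only [lin, map_neg, map_one]
  ring

lemma g0_natDegree {n : ℕ} (hn : 1 ≤ n) :
    ((X - 1) ^ (n - 1) * (X + C ((n : ℝ) - 1)) : ℝ[X]).natDegree ≤ n := by
  rw [← reflect_g0 hn]
  exact natDegree_reflect ((natDegree_comp_scale _ _).trans (natDegree_G0 hn))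

lemma g0_coeff {n : ℕ} (hn : 1 ≤ n) :
    ((X - 1) ^ (n - 1) * (X + C ((n : ℝ) - 1)) : ℝ[X]).coeff (n - 1) = 0 := by
  rw [← reflect_g0 hn, coeff_reflect, revAt_le (by omega), show n - (n - 1) = 1 by omega,
    comp_C_mul_X_coeff, G0_coeff_one, zero_mul]

noncomputable def refl (N : ℕ) : ℝ[X] →ₗ[ℝ] ℝ[X] where
  toFun := reflect N
  map_add' f g := reflect_add f g N
  map_smul' c f := by simp only [smul_eq_C_mul, reflect_C_mul, RingHom.id_apply]

noncomputable def Tf (n d : ℕ) (γ : ℕ → ℝ) : ℝ[X] →ₗ[ℝ] ℝ[X] :=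
  refl d ∘ₗ Hm (fun i => if i ≤ d then γ i else 0) ∘ₗ refl n

lemma Tf_apply (n d : ℕ) (γ : ℕ → ℝ) (g : ℝ[X]) :
    Tf n d γ g = reflect d (Hm (fun i => if i ≤ d then γ i else 0) (reflect n g)) := rfl

lemma Hm_X_pow (γ : ℕ → ℝ) (i : ℕ) : Hm γ (X ^ i) = C (γ i) * X ^ i := by
  ext j
  rw [Hm_coeff, coeff_C_mul, coeff_X_pow]
  split_ifs with h
  · rw [h]
  · simp

lemma Tf_X_pow (n d : ℕ) (γ : ℕ → ℝ) {i : ℕ} (hi : i ≤ n) :
    Tf n d γ (X ^ (n - i)) = if i ≤ d then C (γ i) * X ^ (d - i) else 0 := by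
  rw [Tf_apply, reflect_monomial, revAt_le (by omega), show n - (n - i) = i by omega, Hm_X_pow,
    reflect_C_mul_X_pow]
  split_ifs with h
  · rw [revAt_le h]
  · simp

lemma expand_zero_sum {n : ℕ} (hn : 1 ≤ n) {g : ℝ[X]} (hd : g.natDegree ≤ n)
    (h1 : g.coeff (n - 1) = 0) :
    g = ∑ i ∈ (Finset.range (n + 1)).erase 1, g.coeff (n - i) • (X ^ (n - i) : ℝ[X]) := by
  rw [Finset.sum_erase _ (by rw [h1, zero_smul])]
  conv_lhs => rw [as_sum_range' g (n + 1) (Nat.lt_succ_of_le hd), ← Finset.sum_range_reflect]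
  refine Finset.sum_congr rfl (fun i _ => ?_)
  rw [smul_X_eq_monomial]; rfl

theorem Tf_splits {n d : ℕ} (hn : 1 ≤ n) (hd : 2 ≤ d) (γ : ℕ → ℝ) {P : ℝ[X]}
    (hP : P = Tf n d γ ((X - 1) ^ (n - 1) * (X + C ((n : ℝ) - 1)))) (hs : P.Splits)
    (hsign : d - 1 ≤ Multiset.card (P.roots.filter (fun x => 0 ≤ x)) ∨
      d - 1 ≤ Multiset.card (P.roots.filter (fun x => x ≤ 0)))
    {g : ℝ[X]} (hg : g.natDegree ≤ n) (hg1 : g.coeff (n - 1) = 0) (hgs : g.Splits) :
    (Tf n d γ g).Splits := by
  set γ' : ℕ → ℝ := fun i => if i ≤ d then γ i else 0 with hγ'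
  have hdeg : ∀ G, (Hm γ' G).natDegree ≤ d := by
    intro G
    rw [natDegree_le_iff_coeff_eq_zero]
    intro j hj
    rw [Hm_coeff, hγ']
    simp [not_le.2 hj]
  rw [Tf_apply, ← reflect_g0 hn, reflect_reflect, ← hγ'] at hP
  have hPd : P.natDegree ≤ d := hP ▸ natDegree_reflect (hdeg _)
  have hP1 : P.coeff (d - 1) = 0 := by
    rw [hP, coeff_reflect, revAt_le (by omega), show d - (d - 1) = 1 by omega, Hm_coeff,
      comp_C_mul_X_coeff, G0_coeff_one]
    simp
  have hc1 : d - 1 ≤ Multiset.card P.roots := by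
    rcases hsign with h | h <;> exact h.trans (Multiset.card_le_card (Multiset.filter_le _ _))
  have hP0 : P ≠ 0 := by
    rintro rfl
    simp at hc1; omega
  have hc2 := hs.natDegree_eq_card_roots
  have hc3 : Multiset.card P.roots = d := by
    by_contra hne
    have : P.natDegree = d - 1 := by omega
    rw [← this] at hP1
    exact hP0 (leadingCoeff_eq_zero.1 hP1)
  have hF : (Hm γ' (G0 n)).comp (C (-1) * X) =
      C P.leadingCoeff * ((P.roots.map (fun ρ => -ρ)).map l1).prod := by
    have h1 : P = C P.leadingCoeff * ((P.roots.map (fun ρ => (-ρ, (1 : ℝ)))).map lin).prod := by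
      conv_lhs => rw [hs.eq_prod_roots]
      rw [Multiset.map_map]
      congr 2
      refine Multiset.map_congr rfl (fun ρ _ => ?_)
      simp only [Function.comp_apply, lin, map_neg, map_one]; ring
    have h2 := reflect_prod_lin (P.roots.map (fun ρ => (-ρ, (1 : ℝ))))
    rw [Multiset.card_map, hc3] at h2
    have h3 : reflect d P = Hm γ' ((G0 n).comp (C (-1) * X)) := by rw [hP, reflect_reflect]
    rw [← Hm_comp, ← h3]
    conv_lhs => rw [h1, reflect_C_mul, h2]
    simp only [Multiset.map_map]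
    rfl
  have hneg : ∀ Q : ℝ[X], (Q.comp (C (-1) * X)).comp (C (-1) * X) = Q := by
    intro Q; ext j
    rw [comp_C_mul_X_coeff, comp_C_mul_X_coeff, mul_assoc, ← mul_pow]; simp
  have hlc : P.leadingCoeff ≠ 0 := leadingCoeff_ne_zero.2 hP0
  have hpres : Pres n γ' := by
    rcases hsign with h | h
    · refine pres_of_pattern hn hlc P.roots ?_ ?_
      · rw [← hneg (Hm γ' (G0 n)), hF, mul_comp, C_comp, multiset_prod_comp, Multiset.map_map,
          Multiset.map_map]
        congr 2
        refine Multiset.map_congr rfl (fun ρ _ => ?_)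
        simp only [Function.comp_apply, l1, lin, map_neg, map_one, add_comp, mul_comp, neg_comp,
          one_comp, C_comp, X_comp]
        ring
      · have h4 := congrArg Multiset.card (Multiset.filter_add_not (fun x => 0 ≤ x) P.roots)
        simp only [Multiset.card_add, not_le] at h4
        omega
    · have hH : ∀ G, Hm (fun j => γ' j * (-1) ^ j) G = (Hm γ' G).comp (C (-1) * X) := by
        intro G; ext j
        rw [comp_C_mul_X_coeff, Hm_coeff, Hm_coeff]; ring
      have hp2 : Pres n (fun j => γ' j * (-1) ^ j) := by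
        refine pres_of_pattern hn hlc (P.roots.map (fun ρ => -ρ)) (by rw [hH, hF]) ?_
        have h4 := congrArg Multiset.card (Multiset.filter_add_not (fun x => x ≤ 0) P.roots)
        simp only [Multiset.card_add, not_le] at h4
        rw [Multiset.filter_map, Multiset.card_map]
        simp only [Function.comp_apply, neg_lt_zero]
        omega
      intro G h1 h2 h3
      have := splits_comp_scale (hp2 G h1 h2 h3) (-1)
      rwa [hH, hneg] at this
  rw [Tf_apply, ← hγ']
  refine splits_reflect (hpres _ (natDegree_reflect hg) ?_ (splits_reflect hgs hg)) (hdeg _)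
  rw [coeff_reflect, revAt_le hn, hg1]

end Pool.Agent.H476Z.ZS
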