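import Pool.Agent.H476Z.ZS.Base

/-! The continuity argument. -/

open Polynomial

set_option maxHeartbeats 400000

namespace Pool.Agent.H476Z.ZS

def CC {T : Type*} [TopologicalSpace T] (P : T → ℝ[X]) : Prop :=
  ∀ j, Continuous fun t => (P t).coeff j

section
variable {T : Type*} [TopologicalSpace T]

lemma CC.mul {P Q : T → ℝ[X]} (hP : CC P) (hQ : CC Q) : CC (fun t => P t * Q t) := by
  intro j
  simp only [coeff_mul]
  exact continuous_finsetSum _ (fun x _ => (hP _).mul (hQ _))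

lemma CC.lin {f : T → ℝ × ℝ} (hf : Continuous f) : CC (fun t => lin (f t)) := by
  intro j
  simp only [ZS.lin, coeff_add, coeff_C, coeff_C_mul, coeff_X]
  refine Continuous.add ?_ (hf.snd.mul continuous_const)
  split_ifs
  · exact hf.fst
  · exact continuous_const

lemma CC.prod {ι : Type*} (s : Finset ι) {P : ι → T → ℝ[X]} (h : ∀ i, CC (P i)) :
    CC (fun t => ∏ i ∈ s, P i t) := by
  classical
  induction s using Finset.induction_on with
  | empty => intro j; simpa using continuous_const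
  | insert a s ha ih => simp only [Finset.prod_insert ha]; exact (h a).mul ih

end

lemma exists_fun {α : Type*} (s : Multiset α) {n : ℕ} (h : Multiset.card s = n) :
    ∃ f : Fin n → α, Finset.univ.val.map f = s := by
  obtain ⟨l, rfl⟩ : ∃ l : List α, s = l := ⟨s.toList, by simp⟩
  rw [Multiset.coe_card] at h
  subst h
  exact ⟨l.get, by rw [Fin.univ_val_map]; simp⟩

lemma exists_mono (s : Multiset ℝ) {n : ℕ} (h : Multiset.card s = n) :
    ∃ f : Fin n → ℝ, Monotone f ∧ Finset.univ.val.map f = s := by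
  obtain ⟨f, hf⟩ := exists_fun s h
  refine ⟨f ∘ Tuple.sort f, Tuple.monotone_sort f, ?_⟩
  rw [← Multiset.map_map, Multiset.map_univ_val_equiv, hf]

lemma exists_pairs {G : ℝ[X]} (hG : G.Splits) {n : ℕ} (hd : G.natDegree ≤ n) :
    ∃ s : Multiset (ℝ × ℝ), Multiset.card s = n ∧ (∀ p ∈ s, p ≠ 0) ∧
      G = C G.leadingCoeff * (s.map lin).prod := by
  refine ⟨G.roots.map (fun ρ => (-ρ, 1)) + Multiset.replicate (n - G.natDegree) (1, 0), ?_, ?_, ?_⟩
  · simp only [Multiset.card_add, Multiset.card_map, Multiset.card_replicate,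
      ← hG.natDegree_eq_card_roots]
    omega
  · intro p hp
    rcases Multiset.mem_add.1 hp with h | h
    · obtain ⟨ρ, -, rfl⟩ := Multiset.mem_map.1 h
      simp
    · rw [Multiset.eq_of_mem_replicate h]; simp
  · conv_lhs => rw [hG.eq_prod_roots]
    rw [Multiset.map_add, Multiset.prod_add, Multiset.map_replicate, Multiset.prod_replicate,
      Multiset.map_map]
    have : lin (1, 0) = 1 := by simp [lin]
    rw [this, one_pow, mul_one]
    congr 2
    refine Multiset.map_congr rfl (fun ρ _ => ?_)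
    simp only [Function.comp_apply, lin, map_neg, map_one]; ring

lemma exists_sphere {G : ℝ[X]} (hG : G.Splits) (h0 : G ≠ 0) {n : ℕ} (hd : G.natDegree ≤ n) :
    ∃ (c : ℝ) (y : Fin n → Metric.sphere (0 : ℝ × ℝ) 1), c ≠ 0 ∧
      G = C c * ∏ i, lin (y i) := by
  obtain ⟨s, hc, hs, hG⟩ := exists_pairs hG hd
  obtain ⟨f, rfl⟩ := exists_fun s hc
  have hf : ∀ i, ‖f i‖ ≠ 0 := fun i =>
    norm_ne_zero_iff.2 (hs _ (Multiset.mem_map_of_mem _ (Finset.mem_univ i)))
  refine ⟨G.leadingCoeff * ∏ i, ‖f i‖, fun i => ⟨‖f i‖⁻¹ • f i, ?_⟩, ?_, ?_⟩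
  · rw [mem_sphere_zero_iff_norm, norm_smul, norm_inv, norm_norm, inv_mul_cancel₀ (hf i)]
  · exact mul_ne_zero (leadingCoeff_ne_zero.2 h0) (Finset.prod_ne_zero_iff.2 (fun i _ => hf i))
  · conv_lhs => rw [hG]
    rw [map_mul, mul_assoc, map_prod, ← Finset.prod_mul_distrib, Multiset.map_map]
    congr 1
    refine Finset.prod_congr rfl (fun i _ => ?_)
    rw [← lin_smul, smul_smul, mul_inv_cancel₀ (hf i), one_smul]; rfl

/-- The divided difference of `H` at `u` and its conjugate. -/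
noncomputable def DD (n : ℕ) (u : ℂ) (H : ℝ[X]) : ℂ :=
  ∑ j ∈ Finset.range (n + 1), (H.coeff j : ℂ) *
    ∑ i ∈ Finset.range j, u ^ i * (starRingEnd ℂ u) ^ (j - 1 - i)

lemma DD_mul {n : ℕ} (u : ℂ) {H : ℝ[X]} (hd : H.natDegree ≤ n) :
    DD n u H * (u - starRingEnd ℂ u) = aeval u H - aeval (starRingEnd ℂ u) H := by
  rw [aeval_eq_sum_range' (Nat.lt_succ_of_le hd), aeval_eq_sum_range' (Nat.lt_succ_of_le hd), DD,
    Finset.sum_mul, ← Finset.sum_sub_distrib]
  refine Finset.sum_congr rfl (fun j _ => ?_)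
  rw [mul_assoc, (Commute.all _ _).geom_sum₂_mul, mul_sub]
  simp

lemma DD_real {n : ℕ} (a : ℝ) {H : ℝ[X]} (hd : H.natDegree ≤ n) :
    DD n (a : ℂ) H = (((derivative H).eval a : ℝ) : ℂ) := by
  rw [derivative_eval, sum_over_range' _ (by simp) _ (Nat.lt_succ_of_le hd), DD]
  push_cast
  refine Finset.sum_congr rfl (fun j _ => ?_)
  rw [Complex.conj_ofReal, geom_sum₂_self, mul_assoc]

lemma DD_C_mul (n : ℕ) (u : ℂ) (c : ℝ) (H : ℝ[X]) : DD n u (C c * H) = c * DD n u H := by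
  simp only [DD, coeff_C_mul, Finset.mul_sum]
  refine Finset.sum_congr rfl (fun j _ => ?_)
  refine Finset.sum_congr rfl (fun i _ => ?_)
  push_cast; ring

abbrev YY (n : ℕ) : Type := (Fin n → Metric.sphere (0 : ℝ × ℝ) 1) × Metric.sphere (0 : ℂ) 1

/-- A nonreal root or a multiple nonzero root, normalised to modulus one. -/
def Bad (n : ℕ) (γ : ℕ → ℝ) : Prop :=
  ∃ z : YY n,
    (∏ i, lin (z.1 i)).coeff 1 = 0 ∧ aeval (z.2 : ℂ) (Hm γ (∏ i, lin (z.1 i))) = 0 ∧
      DD n z.2 (Hm γ (∏ i, lin (z.1 i))) = 0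

lemma natDegree_finprod_lin {n : ℕ} (y : Fin n → ℝ × ℝ) : (∏ i, lin (y i)).natDegree ≤ n := by
  have := natDegree_prod_lin (Finset.univ.val.map y)
  rw [Multiset.map_map, Multiset.card_map, Finset.card_val, Finset.card_univ, Fintype.card_fin]
    at this
  exact this

lemma isClosed_bad {n : ℕ} (γ : ℝ → ℕ → ℝ) (hγ : ∀ j, Continuous fun τ => γ τ j) :
    IsClosed {τ | Bad n (γ τ)} := by
  have h1 : CC (fun w : ℝ × YY n => ∏ i, lin (w.2.1 i)) :=
    CC.prod _ (fun i => CC.lin (by fun_prop))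
  have h2 : CC (fun w : ℝ × YY n => Hm (γ w.1) (∏ i, lin (w.2.1 i))) := by
    intro j
    simp only [Hm_coeff]
    exact ((hγ j).comp continuous_fst).mul (h1 j)
  have h3 : Continuous fun w : ℝ × YY n => (w.2.2 : ℂ) := by fun_prop
  have hZ : IsClosed {w : ℝ × YY n | (∏ i, lin (w.2.1 i)).coeff 1 = 0 ∧
      aeval (w.2.2 : ℂ) (Hm (γ w.1) (∏ i, lin (w.2.1 i))) = 0 ∧
      DD n w.2.2 (Hm (γ w.1) (∏ i, lin (w.2.1 i))) = 0} := by
    refine (isClosed_eq (h1 1) continuous_const).inter (IsClosed.inter ?_ ?_)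
    · exact isClosed_eq (continuous_aeval _ n
        (fun w => (Hm_natDegree_le _ _).trans (natDegree_finprod_lin _)) h2 _ h3) continuous_const
    · refine isClosed_eq ?_ continuous_const
      refine continuous_finsetSum _ (fun j _ => (Complex.continuous_ofReal.comp (h2 j)).mul ?_)
      exact continuous_finsetSum _ (fun i _ => (h3.pow i).mul
        ((Complex.continuous_conj.comp h3).pow _))
  have := isClosedMap_fst_of_compactSpace _ hZ
  convert this using 1
  ext τ
  constructor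
  · rintro ⟨z, hz⟩; exact ⟨(τ, z), hz, rfl⟩
  · rintro ⟨⟨τ', z⟩, hz, rfl⟩; exact ⟨z, hz⟩

lemma isClosed_pres {n : ℕ} (γ : ℝ → ℕ → ℝ) (hγ : ∀ j, Continuous fun τ => γ τ j) :
    IsClosed {τ | Pres n (γ τ)} := by
  have : {τ | Pres n (γ τ)} = ⋂ G : ℝ[X], ⋂ _ : G.natDegree ≤ n, ⋂ _ : G.coeff 1 = 0,
      ⋂ _ : G.Splits, {τ | (Hm (γ τ) G).Splits} := by
    ext τ; simp [Pres]
  rw [this]
  refine isClosed_iInter (fun G => isClosed_iInter (fun hd => isClosed_iInter (fun _ =>
    isClosed_iInter (fun _ => ?_))))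
  refine isClosed_splits _ n (fun τ => (Hm_natDegree_le _ _).trans hd) (fun j => ?_)
  simp only [Hm_coeff]
  exact (hγ j).mul continuous_const

lemma natDegree_comp_scale (G : ℝ[X]) (a : ℝ) : (G.comp (C a * X)).natDegree ≤ G.natDegree := by
  rw [natDegree_le_iff_coeff_eq_zero]
  intro j hj
  rw [comp_C_mul_X_coeff, coeff_eq_zero_of_natDegree_lt hj, zero_mul]

lemma splits_comp_scale {G : ℝ[X]} (hG : G.Splits) (a : ℝ) : (G.comp (C a * X)).Splits :=
  hG.comp_of_natDegree_le_one (by compute_degree)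

lemma pres_or_bad (n : ℕ) (γ : ℕ → ℝ) : Pres n γ ∨ Bad n γ := by
  by_contra hcon
  push Not at hcon
  obtain ⟨hP, hB⟩ := hcon
  apply hP
  intro G hd h1 hG
  by_cases hH0 : Hm γ G = 0
  · rw [hH0]; exact Splits.zero
  refine splits_of_no_nonreal (fun u hu hz => hB ?_)
  have hu0 : u ≠ 0 := by rintro rfl; simp at hu
  have hn0 : ‖u‖ ≠ 0 := norm_ne_zero_iff.2 hu0
  have hn1 : ((‖u‖ : ℝ) : ℂ) ≠ 0 := by exact_mod_cast hn0
  set G' := G.comp (C ‖u‖ * X) with hG'
  have hG0 : G' ≠ 0 := by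
    intro h
    apply hH0
    ext j
    have := congrArg (fun p => coeff p j) h
    simp only [hG', comp_C_mul_X_coeff, coeff_zero] at this
    rw [Hm_coeff, (mul_eq_zero.1 this).resolve_right (pow_ne_zero _ hn0)]; simp
  have hd' : G'.natDegree ≤ n := (natDegree_comp_scale _ _).trans hd
  obtain ⟨c, y, hc, hy⟩ := exists_sphere (splits_comp_scale hG ‖u‖) hG0 hd'
  rw [← hG'] at hy
  set v : ℂ := u / (‖u‖ : ℝ) with hv
  have hv1 : v ∈ Metric.sphere (0 : ℂ) 1 := by
    rw [mem_sphere_zero_iff_norm, hv, norm_div, Complex.norm_real, norm_norm, div_self hn0]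
  have hvim : v.im ≠ 0 := by
    rw [hv, Complex.div_ofReal_im]; exact div_ne_zero hu hn0
  have e1 : aeval v (Hm γ G') = 0 := by
    rw [hG', Hm_comp, aeval_comp, ← hz]
    congr 2
    simp only [map_mul, aeval_C, aeval_X, Complex.coe_algebraMap, hv]
    field_simp
  have e2 : DD n v (Hm γ G') = 0 := by
    have := DD_mul v ((Hm_natDegree_le γ G').trans hd')
    rw [aeval_conj, e1, map_zero, sub_zero] at this
    refine (mul_eq_zero.1 this).resolve_right (fun h => hvim ?_)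
    exact Complex.conj_eq_iff_im.1 (sub_eq_zero.1 h).symm
  have e3 : G'.coeff 1 = 0 := by rw [hG', comp_C_mul_X_coeff, h1, zero_mul]
  have hc' : (c : ℂ) ≠ 0 := by exact_mod_cast hc
  refine ⟨(y, ⟨v, hv1⟩), ?_, ?_, ?_⟩
  · rw [hy, coeff_C_mul] at e3
    exact (mul_eq_zero.1 e3).resolve_left hc
  · rw [hy, Hm_C_mul, map_mul, aeval_C] at e1
    exact (mul_eq_zero.1 e1).resolve_left hc'
  · rw [hy, Hm_C_mul, DD_C_mul] at e2
    exact (mul_eq_zero.1 e2).resolve_left hc'

lemma not_bad {n : ℕ} {γ : ℕ → ℝ} (hn : 1 ≤ n) (hγ : ∀ j ≤ n, j ≠ 1 → γ j ≠ 0) (hP : Pres n γ)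
    (hF : n ≤ (Hm γ (G0 n)).roots.toFinset.card) : ¬ Bad n γ := by
  rintro ⟨⟨y, u, hu⟩, h1, h2, h3⟩
  simp only at h1 h2 h3
  have hy : ∀ i, (y i : ℝ × ℝ) ≠ 0 := by
    intro i h
    have := (y i).2
    rw [mem_sphere_zero_iff_norm, h] at this
    simp at this
  set G : ℝ[X] := ∏ i, lin (y i) with hG
  have hd : G.natDegree ≤ n := natDegree_finprod_lin _
  have hG0 : G ≠ 0 := Finset.prod_ne_zero_iff.2 (fun i _ => lin_ne_zero (hy i))
  have hGs : G.Splits := Splits.prod (fun i _ => splits_lin _)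
  have hH0 := Hm_ne_zero hγ hd h1 hG0
  by_cases him : u.im = 0
  swap
  · exact aeval_ne_zero_of_splits (hP G hd h1 hGs) hH0 him h2
  obtain ⟨a, rfl⟩ : ∃ a : ℝ, u = a := ⟨u.re, by apply Complex.ext <;> simp [him]⟩
  have ha : a ≠ 0 := by rintro rfl; simp at hu
  rw [DD_real a ((Hm_natDegree_le _ _).trans hd), Complex.ofReal_eq_zero] at h3
  rw [show (a : ℂ) = algebraMap ℝ ℂ a from rfl, aeval_algebraMap_apply, coe_aeval_eq_eval] at h2
  replace h2 : (Hm γ G).eval a = 0 := by simpa using h2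
  refine key hn hγ hP hF (Finset.univ.val.map (fun i => ((y i : ℝ × ℝ).1, (y i : ℝ × ℝ).2 * a)))
    (by simp) ?_ (G := G.comp (C a * X)) ?_ ?_ ?_ ?_
  · intro p hp h
    obtain ⟨i, -, rfl⟩ := Multiset.mem_map.1 hp
    apply hy i
    have e1 := congrArg Prod.fst h
    have e2 := congrArg Prod.snd h
    simp only [Prod.fst_zero, Prod.snd_zero] at e1 e2
    exact Prod.ext e1 ((mul_eq_zero.1 e2).resolve_right ha)
  · rw [hG, prod_comp, Multiset.map_map]
    refine Finset.prod_congr rfl (fun i _ => ?_)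
    simp only [Function.comp_apply, lin, add_comp, mul_comp, C_comp, X_comp, map_mul]; ring
  · rw [comp_C_mul_X_coeff, h1, zero_mul]
  · rw [Hm_comp, eval_comp]; simpa using h2
  · rw [Hm_comp, derivative_comp, eval_mul, eval_comp]
    simp [h3]

lemma Ft_distinct {t : Multiset ℝ} (h0 : t ≠ 0) (hnd : t.Nodup) (ht : ∀ x ∈ t, 0 < x) :
    Multiset.card t + 1 ≤ (Ft t).roots.toFinset.card := by
  classical
  obtain ⟨x0, hx0⟩ := Multiset.exists_mem_of_ne_zero h0
  have hs : 0 < t.sum := (ht x0 hx0).trans_le (Multiset.single_le_sum (fun y hy => (ht y hy).le) _ hx0)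
  have hnd' : ((-t.sum) ::ₘ t).Nodup :=
    Multiset.nodup_cons.2 ⟨fun h => by have := ht _ h; linarith, hnd⟩
  rw [← Multiset.card_cons (-t.sum), ← Multiset.toFinset_card_of_nodup hnd']
  refine Finset.card_le_card_of_injOn (fun x => -x⁻¹) ?_ (fun a _ b _ hab => by simpa using hab)
  intro x hx
  simp only [Finset.mem_coe, Multiset.mem_toFinset] at hx ⊢
  have hx0 : x ≠ 0 := by
    rcases Multiset.mem_cons.1 hx with h | h
    · rw [h]; linarith
    · exact (ht x h).ne'
  rw [Ft_eq, mem_roots (prod_l1_ne_zero _), IsRoot.def, eval_multiset_prod, Multiset.prod_eq_zero_iff,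
    Multiset.map_map]
  refine Multiset.mem_map.2 ⟨x, hx, ?_⟩
  simp [l1, lin, hx0]

theorem core {n : ℕ} (hn : 2 ≤ n) (t : Multiset ℝ) (hc : Multiset.card t + 1 = n)
    (ht : ∀ x ∈ t, 0 ≤ x) : Pres n (gam n (Ft t)) := by
  obtain ⟨t0, hc0, hnd0, hpos0, hP0⟩ := base hn
  obtain ⟨r0, hm0, rfl⟩ := exists_mono t0 (n := n - 1) (by omega)
  obtain ⟨r1, hm1, rfl⟩ := exists_mono t (n := n - 1) (by omega)
  have hinj0 : Function.Injective r0 := fun i j hij =>
    Multiset.inj_on_of_nodup_map hnd0 i (Finset.mem_univ i) j (Finset.mem_univ j) hij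
  have hsm0 : StrictMono r0 := hm0.strictMono_of_injective hinj0
  set r : ℝ → Fin (n - 1) → ℝ := fun τ i => (1 - τ) * r0 i + τ * r1 i with hr
  set γ : ℝ → ℕ → ℝ := fun τ => gam n (Ft (Finset.univ.val.map (r τ))) with hγ
  have hcont : ∀ j, Continuous fun τ => γ τ j := by
    intro j
    have h1 : CC (fun τ => lin (1, -∑ i, r τ i) * ∏ i, lin (1, r τ i)) :=
      (CC.lin (by fun_prop)).mul (CC.prod _ (fun i => CC.lin (by fun_prop)))
    have h2 : (fun τ => γ τ j) =
        fun τ => (lin (1, -∑ i, r τ i) * ∏ i, lin (1, r τ i)).coeff j / (G0 n).coeff j := by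
      funext τ
      simp only [hγ, gam, Ft, Multiset.map_map]
      rfl
    rw [h2]
    exact (h1 j).div_const _
  have hA := isClosed_pres (n := n) γ hcont
  have hB := isClosed_bad (n := n) γ hcont
  have h0 : Pres n (γ 0) := by
    have : r 0 = r0 := by funext i; simp [hr]
    simp only [hγ, this]; exact hP0
  have hsub : Set.Ico (0 : ℝ) 1 ⊆ {τ | Pres n (γ τ)} := by
    intro τ hτ
    by_contra hcon
    obtain ⟨σ, hσ, hσA, hσB⟩ := isPreconnected_closed_iff.1 (isPreconnected_Ico (a := (0 : ℝ)) (b := 1))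
      _ _ hA hB (fun x _ => pres_or_bad n (γ x)) ⟨0, by simp, h0⟩
      ⟨τ, hτ, (pres_or_bad n (γ τ)).resolve_left hcon⟩
    have hpos : ∀ x ∈ Finset.univ.val.map (r σ), 0 < x := by
      intro x hx
      obtain ⟨i, -, rfl⟩ := Multiset.mem_map.1 hx
      have e0 := hpos0 _ (Multiset.mem_map_of_mem r0 (Finset.mem_univ i))
      have e1 := ht _ (Multiset.mem_map_of_mem r1 (Finset.mem_univ i))
      have := mul_pos (sub_pos.2 hσ.2) e0
      have := mul_nonneg hσ.1 e1
      simp only [hr]; linarith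
    have hsm : StrictMono (r σ) := by
      intro i j hij
      have := mul_lt_mul_of_pos_left (hsm0 hij) (sub_pos.2 hσ.2)
      have := mul_le_mul_of_nonneg_left (hm1 hij.le) hσ.1
      simp only [hr]; linarith
    have hcard : Multiset.card (Finset.univ.val.map (r σ)) + 1 = n := by simp; omega
    have hFF : Hm (γ σ) (G0 n) = Ft (Finset.univ.val.map (r σ)) :=
      Hm_gam (by omega) ((Ft_natDegree _).trans hcard.le) (Ft_coeff_one _)
    refine not_bad (by omega) (fun j hj hj1 => ?_) hσA ?_ hσB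
    · exact div_ne_zero (Ft_coeff_ne _ hpos j hj1 (by omega)) (G0_coeff_ne hj1 hj)
    · rw [hFF]
      refine le_trans (le_of_eq hcard.symm) (Ft_distinct ?_ ?_ hpos)
      · intro h; rw [h] at hcard; simp at hcard; omega
      · exact Finset.univ.nodup.map hsm.injective
  have h1 : (1 : ℝ) ∈ {τ | Pres n (γ τ)} := by
    refine hA.closure_subset_iff.2 hsub ?_
    rw [closure_Ico (by norm_num)]
    simp
  have : r 1 = r1 := by funext i; simp [hr]
  simpa only [hγ, this, Set.mem_ofPred_eq] using h1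

end Pool.Agent.H476Z.ZS
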