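import Mathlib

/-! Binary forms with distinct real roots and their polar derivatives, through a linear
functional on polynomials. -/

open Polynomial

namespace Pool.Agent.H476Z.ZS

/-- The linear polynomial `s + x X`. -/
noncomputable def lin (p : ℝ × ℝ) : ℝ[X] := C p.1 + C p.2 * X

def det (p q : ℝ × ℝ) : ℝ := p.1 * q.2 - p.2 * q.1

/-- The binary form `p ↦ Λ (lin p ^ N)` is nonzero with `N` distinct projective roots. -/
def Strict (N : ℕ) (Λ : ℝ[X] →ₗ[ℝ] ℝ) : Prop :=
  (∃ p, Λ (lin p ^ N) ≠ 0) ∧ ∃ S : Finset (ℝ × ℝ), S.card = N ∧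
    (∀ p ∈ S, p ≠ 0 ∧ Λ (lin p ^ N) = 0) ∧ ∀ p ∈ S, ∀ q ∈ S, p ≠ q → det p q ≠ 0

lemma lin_add_smul (p q : ℝ × ℝ) (w : ℝ) : lin (p + w • q) = lin p + C w * lin q := by
  simp only [lin, Prod.fst_add, Prod.snd_add, Prod.smul_fst, Prod.smul_snd, smul_eq_mul, map_add,
    map_mul]
  ring

lemma lin_smul (q : ℝ × ℝ) (w : ℝ) : lin (w • q) = C w * lin q := by
  simp only [lin, Prod.smul_fst, Prod.smul_snd, smul_eq_mul, map_mul]
  ring

lemma map_lin_smul (Λ : ℝ[X] →ₗ[ℝ] ℝ) (N : ℕ) (q : ℝ × ℝ) (w : ℝ) :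
    Λ (lin (w • q) ^ N) = w ^ N * Λ (lin q ^ N) := by
  rw [lin_smul, mul_pow, ← C_pow, ← smul_eq_C_mul, map_smul, smul_eq_mul]

noncomputable def kap (Λ : ℝ[X] →ₗ[ℝ] ℝ) (N : ℕ) (p q : ℝ × ℝ) : ℝ[X] :=
  ∑ j ∈ Finset.range (N + 1), monomial j ((N.choose j : ℝ) * Λ (lin q ^ j * lin p ^ (N - j)))

lemma kap_eval (Λ : ℝ[X] →ₗ[ℝ] ℝ) (N : ℕ) (p q : ℝ × ℝ) (w : ℝ) :
    (kap Λ N p q).eval w = Λ (lin (p + w • q) ^ N) := by
  rw [lin_add_smul, add_comm, add_pow, map_sum, kap, eval_finsetSum]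
  refine Finset.sum_congr rfl (fun j _ => ?_)
  have : (C w * lin q) ^ j * lin p ^ (N - j) * (N.choose j : ℝ[X]) =
      ((N.choose j : ℝ) * w ^ j) • (lin q ^ j * lin p ^ (N - j)) := by
    rw [smul_eq_C_mul, map_mul, map_natCast, mul_pow, C_pow]; ring
  rw [this, map_smul, eval_monomial, smul_eq_mul]; ring

lemma kap_coeff (Λ : ℝ[X] →ₗ[ℝ] ℝ) (N : ℕ) (p q : ℝ × ℝ) (j : ℕ) :
    (kap Λ N p q).coeff j = (N.choose j : ℝ) * Λ (lin q ^ j * lin p ^ (N - j)) := by
  rw [kap, finsetSum_coeff]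
  simp only [coeff_monomial]
  rw [Finset.sum_ite_eq' (Finset.range (N + 1)) j]
  split_ifs with h
  · rfl
  · rw [Nat.choose_eq_zero_of_lt (by simpa using h)]; simp

lemma kap_derivative (Λ : ℝ[X] →ₗ[ℝ] ℝ) (N : ℕ) (p q : ℝ × ℝ) :
    derivative (kap Λ (N + 1) p q) =
      C ((N : ℝ) + 1) * kap (Λ ∘ₗ LinearMap.mulLeft ℝ (lin q)) N p q := by
  ext j
  rw [coeff_derivative, coeff_C_mul, kap_coeff, kap_coeff]
  have h : ((N : ℝ) + 1) * (N.choose j : ℝ) = ((N + 1).choose (j + 1) : ℝ) * ((j : ℝ) + 1) := by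
    exact_mod_cast Nat.add_one_mul_choose_eq N j
  simp only [LinearMap.comp_apply, LinearMap.mulLeft_apply, Nat.add_sub_add_right]
  rw [← mul_assoc (lin q), ← pow_succ', ← mul_assoc, h]; ring

lemma decomp {p q : ℝ × ℝ} (h : det p q ≠ 0) (z : ℝ × ℝ) :
    z = (det z q / det p q) • p + (det p z / det p q) • q := by
  ext
  · simp only [Prod.fst_add, Prod.smul_fst, smul_eq_mul]; field_simp; simp only [det]; ring
  · simp only [Prod.snd_add, Prod.smul_snd, smul_eq_mul]; field_simp; simp only [det]; ring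

lemma decomp' {p q : ℝ × ℝ} (h : det p q ≠ 0) {z : ℝ × ℝ} (hz : det z q ≠ 0) :
    z = (det z q / det p q) • (p + (det p z / det z q) • q) := by
  conv_lhs => rw [decomp h z]
  rw [smul_add, smul_smul]
  congr 2
  field_simp

lemma poly_of_strict {N : ℕ} {Λ : ℝ[X] →ₗ[ℝ] ℝ} (hS : Strict N Λ) {p q : ℝ × ℝ}
    (h : det p q ≠ 0) : kap Λ N p q ≠ 0 ∧ (N ≤ (kap Λ N p q).roots.toFinset.card ∨
      (N ≤ (kap Λ N p q).roots.toFinset.card + 1 ∧ Λ (lin q ^ N) = 0)) := by
  classical
  obtain ⟨⟨z, hz⟩, S, hcard, hroot, hdet⟩ := hS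
  have h0 : kap Λ N p q ≠ 0 := by
    intro h0
    apply hz
    by_cases hzq : det z q = 0
    · have h1 := kap_coeff Λ N p q N
      rw [h0] at h1
      simp only [coeff_zero, Nat.choose_self, Nat.cast_one, Nat.sub_self, pow_zero, mul_one,
        one_mul] at h1
      have h2 := decomp h z
      rw [hzq, zero_div, zero_smul, zero_add] at h2
      rw [h2, map_lin_smul, ← h1, mul_zero]
    · rw [decomp' h hzq, map_lin_smul, ← kap_eval, h0, eval_zero, mul_zero]
  refine ⟨h0, ?_⟩
  have ha : (S.filter (fun z => det z q ≠ 0)).card ≤ (kap Λ N p q).roots.toFinset.card := by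
    refine Finset.card_le_card_of_injOn (fun z => det p z / det z q) ?_ ?_
    · intro z hz
      obtain ⟨hz1, hz2⟩ := Finset.mem_filter.1 (Finset.mem_coe.1 hz)
      simp only [Finset.mem_coe, Multiset.mem_toFinset]
      rw [mem_roots h0, IsRoot.def, kap_eval]
      have h3 := (hroot z hz1).2
      rw [decomp' h hz2, map_lin_smul] at h3
      exact (mul_eq_zero.1 h3).resolve_left (pow_ne_zero _ (div_ne_zero hz2 h))
    · intro z hz y hy hzy
      obtain ⟨hz1, hz2⟩ := Finset.mem_filter.1 (Finset.mem_coe.1 hz)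
      obtain ⟨hy1, hy2⟩ := Finset.mem_filter.1 (Finset.mem_coe.1 hy)
      by_contra hne
      apply hdet z hz1 y hy1 hne
      simp only at hzy
      rw [decomp' h hz2, decomp' h hy2, hzy]
      generalize p + (det p y / det y q) • q = v
      simp only [det, Prod.smul_fst, Prod.smul_snd, smul_eq_mul]; ring
  have hb : (S.filter (fun z => ¬ det z q ≠ 0)).card ≤ 1 := by
    rw [Finset.card_le_one]
    intro z hz y hy
    obtain ⟨hz1, hz2⟩ := Finset.mem_filter.1 hz
    obtain ⟨hy1, hy2⟩ := Finset.mem_filter.1 hy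
    push Not at hz2 hy2
    by_contra hne
    apply hdet z hz1 y hy1 hne
    have h2 := decomp h z
    have h3 := decomp h y
    rw [hz2, zero_div, zero_smul, zero_add] at h2
    rw [hy2, zero_div, zero_smul, zero_add] at h3
    rw [h2, h3]
    generalize det p z / det p q = a
    generalize det p y / det p q = b
    simp only [det, Prod.smul_fst, Prod.smul_snd, smul_eq_mul]; ring
  have hsum := Finset.card_filter_add_card_filter_not (s := S) (fun z => det z q ≠ 0)
  rcases (S.filter (fun z => ¬ det z q ≠ 0)).eq_empty_or_nonempty with he | ⟨z, hz⟩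
  · left; rw [he] at hsum; simp only [Finset.card_empty] at hsum; omega
  · right
    refine ⟨by omega, ?_⟩
    obtain ⟨hz1, hz2⟩ := Finset.mem_filter.1 hz
    push Not at hz2
    have h2 := decomp h z
    rw [hz2, zero_div, zero_smul, zero_add] at h2
    obtain ⟨h4, h3⟩ := hroot z hz1
    rw [h2, map_lin_smul] at h3
    refine (mul_eq_zero.1 h3).resolve_left (pow_ne_zero _ ?_)
    intro h5
    rw [h5, zero_smul] at h2
    exact h4 h2

lemma strict_of_poly {N : ℕ} (hN : 1 ≤ N) {Λ : ℝ[X] →ₗ[ℝ] ℝ} {p q : ℝ × ℝ}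
    (h : det p q ≠ 0) (h0 : kap Λ N p q ≠ 0) (hc : N ≤ (kap Λ N p q).roots.toFinset.card ∨
      (N ≤ (kap Λ N p q).roots.toFinset.card + 1 ∧ Λ (lin q ^ N) = 0)) : Strict N Λ := by
  classical
  have hdd : ∀ a b : ℝ, det (p + a • q) (p + b • q) = (b - a) * det p q := by
    intro a b
    simp only [det, Prod.fst_add, Prod.snd_add, Prod.smul_fst, Prod.smul_snd, smul_eq_mul]; ring
  have hdq : ∀ a : ℝ, det (p + a • q) q = det p q := by
    intro a
    simp only [det, Prod.fst_add, Prod.snd_add, Prod.smul_fst, Prod.smul_snd, smul_eq_mul]; ring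
  have hqd : ∀ a : ℝ, det q (p + a • q) = -det p q := by
    intro a
    simp only [det, Prod.fst_add, Prod.snd_add, Prod.smul_fst, Prod.smul_snd, smul_eq_mul]; ring
  have hinj : Function.Injective (fun a : ℝ => p + a • q) := by
    intro a b hab
    simp only at hab
    have := hdd a b
    rw [hab] at this
    have h2 : det (p + b • q) (p + b • q) = 0 := by simp only [det]; ring
    rw [h2] at this
    have := (mul_eq_zero.1 this.symm).resolve_right h
    linarith
  have hne : ∀ a : ℝ, p + a • q ≠ 0 := by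
    intro a ha
    have := hdq a
    rw [ha] at this
    apply h; rw [← this]; simp [det]
  have hmem : ∀ R : Finset ℝ, R ⊆ (kap Λ N p q).roots.toFinset →
      ∀ z ∈ R.image (fun a : ℝ => p + a • q), z ≠ 0 ∧ Λ (lin z ^ N) = 0 := by
    intro R hR z hz
    obtain ⟨a, ha, rfl⟩ := Finset.mem_image.1 hz
    refine ⟨hne a, ?_⟩
    have := hR ha
    rwa [Multiset.mem_toFinset, mem_roots h0, IsRoot.def, kap_eval] at this
  have hpair : ∀ R : Finset ℝ, ∀ z ∈ R.image (fun a : ℝ => p + a • q),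
      ∀ y ∈ R.image (fun a : ℝ => p + a • q), z ≠ y → det z y ≠ 0 := by
    intro R z hz y hy hzy
    obtain ⟨a, -, rfl⟩ := Finset.mem_image.1 hz
    obtain ⟨b, -, rfl⟩ := Finset.mem_image.1 hy
    rw [hdd]
    refine mul_ne_zero (sub_ne_zero.2 ?_) h
    rintro rfl; exact hzy rfl
  refine ⟨?_, ?_⟩
  · by_contra hcon
    push Not at hcon
    apply h0
    apply Polynomial.funext
    intro w
    rw [kap_eval, hcon, eval_zero]
  rcases hc with hc | ⟨hc, hq⟩
  · obtain ⟨R, hR, hRc⟩ := Finset.exists_subset_card_eq hc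
    exact ⟨R.image (fun a : ℝ => p + a • q), by rw [Finset.card_image_of_injective _ hinj, hRc],
      hmem R hR, hpair R⟩
  · obtain ⟨R, hR, hRc⟩ := Finset.exists_subset_card_eq
      (show N - 1 ≤ (kap Λ N p q).roots.toFinset.card by omega)
    have hqn : q ∉ R.image (fun a : ℝ => p + a • q) := by
      intro hq'
      obtain ⟨a, -, ha⟩ := Finset.mem_image.1 hq'
      have := hdq a
      rw [ha] at this
      apply h; rw [← this]; simp only [det]; ring
    refine ⟨insert q (R.image (fun a : ℝ => p + a • q)), ?_, ?_, ?_⟩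
    · rw [Finset.card_insert_of_notMem hqn, Finset.card_image_of_injective _ hinj, hRc]; omega
    · intro z hz
      rcases Finset.mem_insert.1 hz with rfl | hz
      · refine ⟨?_, hq⟩
        rintro rfl; apply h; simp [det]
      · exact hmem R hR z hz
    · intro z hz y hy hzy
      rcases Finset.mem_insert.1 hz with rfl | hz
      · rcases Finset.mem_insert.1 hy with rfl | hy
        · exact absurd rfl hzy
        · obtain ⟨b, -, rfl⟩ := Finset.mem_image.1 hy
          rw [hqd]; exact neg_ne_zero.2 h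
      · rcases Finset.mem_insert.1 hy with rfl | hy
        · obtain ⟨b, -, rfl⟩ := Finset.mem_image.1 hz
          rw [hdq]; exact h
        · exact hpair R z hz y hy hzy

/-- Rolle: a polar derivative of a form with distinct real roots has distinct real roots. -/
lemma Strict.polar {N : ℕ} (hN : 1 ≤ N) {Λ : ℝ[X] →ₗ[ℝ] ℝ} (hS : Strict (N + 1) Λ) {q : ℝ × ℝ}
    (hq : q ≠ 0) : Strict N (Λ ∘ₗ LinearMap.mulLeft ℝ (lin q)) := by
  classical
  have h : det (q.2, -q.1) q ≠ 0 := by
    intro h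
    apply hq
    simp only [det] at h
    have h1 : q.1 = 0 := by nlinarith [sq_nonneg q.1, sq_nonneg q.2]
    have h2 : q.2 = 0 := by nlinarith [sq_nonneg q.1, sq_nonneg q.2]
    exact Prod.ext h1 h2
  set p : ℝ × ℝ := (q.2, -q.1)
  obtain ⟨h0, hc⟩ := poly_of_strict hS h
  have hd := kap_derivative Λ N p q
  have hN' : ((N : ℝ) + 1) ≠ 0 := by positivity
  have hr := card_roots_toFinset_le_derivative (kap Λ (N + 1) p q)
  rw [hd, roots_C_mul _ hN'] at hr
  have h1 : kap (Λ ∘ₗ LinearMap.mulLeft ℝ (lin q)) N p q ≠ 0 := by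
    intro h1
    rw [h1, mul_zero] at hd
    have h2 := eq_C_of_derivative_eq_zero hd
    rw [h2, roots_C] at hc
    simp only [Multiset.toFinset_zero, Finset.card_empty] at hc
    omega
  refine strict_of_poly hN h h1 ?_
  rcases hc with hc | ⟨hc, hq'⟩
  · left; omega
  · right
    refine ⟨by omega, ?_⟩
    simp only [LinearMap.comp_apply, LinearMap.mulLeft_apply]
    rw [← pow_succ', hq']

lemma Strict.polar_prod {N : ℕ} (hN : 1 ≤ N) (t : Multiset (ℝ × ℝ)) (ht : ∀ q ∈ t, q ≠ 0)
    {Λ : ℝ[X] →ₗ[ℝ] ℝ} (hS : Strict (N + Multiset.card t) Λ) :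
    Strict N (Λ ∘ₗ LinearMap.mulLeft ℝ (t.map lin).prod) := by
  induction t using Multiset.induction_on generalizing Λ with
  | empty =>
    have : Λ ∘ₗ LinearMap.mulLeft ℝ (Multiset.map lin 0).prod = Λ := by
      ext1 G; simp
    rw [this]; simpa using hS
  | cons a t ih =>
    rw [Multiset.card_cons, ← add_assoc] at hS
    have h1 := hS.polar (by omega) (ht a (Multiset.mem_cons_self _ _))
    have h2 := ih (fun q hq => ht q (Multiset.mem_cons_of_mem hq)) h1
    have : Λ ∘ₗ LinearMap.mulLeft ℝ (Multiset.map lin (a ::ₘ t)).prod =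
        (Λ ∘ₗ LinearMap.mulLeft ℝ (lin a)) ∘ₗ LinearMap.mulLeft ℝ (Multiset.map lin t).prod := by
      refine LinearMap.ext (fun G => ?_)
      simp
    rw [this]; exact h2

lemma Strict.one {Λ : ℝ[X] →ₗ[ℝ] ℝ} (hS : Strict 1 Λ) {p q : ℝ × ℝ} (h : det p q ≠ 0)
    (hp : Λ (lin p) = 0) (hq : Λ (lin q) = 0) : False := by
  obtain ⟨⟨z, hz⟩, -⟩ := hS
  apply hz
  rw [pow_one, decomp h z, lin_add_smul, lin_smul, ← smul_eq_C_mul, ← smul_eq_C_mul, map_add,
    map_smul, map_smul, hp, hq]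
  simp

lemma Strict.two {Λ : ℝ[X] →ₗ[ℝ] ℝ} (hS : Strict 2 Λ) {p q : ℝ × ℝ} (h : det p q ≠ 0)
    (hpq : Λ (lin p * lin q) = 0) : Λ (lin p * lin p) * Λ (lin q * lin q) < 0 := by
  obtain ⟨⟨z, hz⟩, S, hcard, hroot, hdet⟩ := hS
  have hf : ∀ a b : ℝ, Λ (lin (a • p + b • q) ^ 2) =
      a ^ 2 * Λ (lin p * lin p) + b ^ 2 * Λ (lin q * lin q) := by
    intro a b
    have : lin (a • p + b • q) ^ 2 = (a ^ 2) • (lin p * lin p) + (b ^ 2) • (lin q * lin q) +
        (2 * a * b) • (lin p * lin q) := by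
      rw [lin_add_smul, lin_smul]
      simp only [smul_eq_C_mul, map_mul, map_pow, map_ofNat]
      ring
    rw [this, map_add, map_add, map_smul, map_smul, map_smul, hpq]
    simp
  obtain ⟨x, y, hxy, rfl⟩ := Finset.card_eq_two.1 hcard
  have hx := (hroot x (by simp)).2
  have hy := (hroot y (by simp)).2
  have hd := hdet x (by simp) y (by simp) hxy
  rw [decomp h z, hf] at hz
  rw [decomp h x, decomp h y] at hd
  rw [decomp h x, hf] at hx
  rw [decomp h y, hf] at hy
  generalize det x q / det p q = a at hx hd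
  generalize det p x / det p q = b at hx hd
  generalize det y q / det p q = c at hy hd
  generalize det p y / det p q = d at hy hd
  generalize det z q / det p q = e at hz
  generalize det p z / det p q = f at hz
  generalize Λ (lin p * lin p) = A at *
  generalize Λ (lin q * lin q) = B at *
  have hd' : a * d - b * c ≠ 0 := by
    intro h'
    apply hd
    have : det (a • p + b • q) (c • p + d • q) = (a * d - b * c) * det p q := by
      simp only [det, Prod.fst_add, Prod.snd_add, Prod.smul_fst, Prod.smul_snd, smul_eq_mul]; ring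
    rw [this, h', zero_mul]
  have hid : (a * d - b * c) ^ 2 * (A * B) = -(a * c * A + b * d * B) ^ 2 := by
    linear_combination (c ^ 2 * A + d ^ 2 * B) * hx
  have hpos : 0 < (a * d - b * c) ^ 2 := by positivity
  have hne : a * c * A + b * d * B ≠ 0 := by
    intro h'
    have hA : (a * d - b * c) ^ 2 * A = 0 := by
      linear_combination d ^ 2 * hx + b ^ 2 * hy - 2 * b * d * h'
    have hB : (a * d - b * c) ^ 2 * B = 0 := by
      linear_combination c ^ 2 * hx + a ^ 2 * hy - 2 * a * c * h'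
    have hA' := (mul_eq_zero.1 hA).resolve_left hpos.ne'
    have hB' := (mul_eq_zero.1 hB).resolve_left hpos.ne'
    apply hz; rw [hA', hB']; simp
  have : 0 < (a * c * A + b * d * B) ^ 2 := by positivity
  by_contra hcon
  push Not at hcon
  have := mul_nonneg hpos.le hcon
  linarith

end Pool.Agent.H476Z.ZS
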