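import Pool.Agent.H476Z.ZS.Bounds
import Pool.Agent.H476Z.ZS.Polar

/-! The key step: a diagonal preserver whose test polynomial has simple roots produces no
multiple nonzero root. -/

open Polynomial

namespace Pool.Agent.H476Z.ZS

/-- The diagonal map multiplying the coefficient of `X ^ j` by `γ j`. -/
noncomputable def Hm (γ : ℕ → ℝ) : ℝ[X] →ₗ[ℝ] ℝ[X] :=
  Polynomial.lsum (R := ℝ) (fun j => γ j • monomial j)

lemma Hm_coeff (γ : ℕ → ℝ) (G : ℝ[X]) (j : ℕ) : (Hm γ G).coeff j = γ j * G.coeff j := by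
  simp only [Hm, lsum_apply, sum_def, finsetSum_coeff, LinearMap.smul_apply, coeff_smul,
    coeff_monomial, smul_eq_mul, mul_ite, mul_zero]
  rw [Finset.sum_ite_eq' G.support j]
  split_ifs with h
  · rfl
  · rw [notMem_support_iff.1 h, mul_zero]

lemma Hm_natDegree_le (γ : ℕ → ℝ) (G : ℝ[X]) : (Hm γ G).natDegree ≤ G.natDegree := by
  rw [natDegree_le_iff_coeff_eq_zero]
  intro j hj
  rw [Hm_coeff, coeff_eq_zero_of_natDegree_lt hj, mul_zero]

lemma Hm_comp (γ : ℕ → ℝ) (G : ℝ[X]) (a : ℝ) :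
    Hm γ (G.comp (C a * X)) = (Hm γ G).comp (C a * X) := by
  ext j
  rw [Hm_coeff, comp_C_mul_X_coeff, comp_C_mul_X_coeff, Hm_coeff, mul_assoc]

lemma Hm_C_mul (γ : ℕ → ℝ) (G : ℝ[X]) (a : ℝ) : Hm γ (C a * G) = C a * Hm γ G := by
  rw [← smul_eq_C_mul, ← smul_eq_C_mul, map_smul]

lemma Hm_X_mul_derivative (γ : ℕ → ℝ) (G : ℝ[X]) :
    Hm γ (X * derivative G) = X * derivative (Hm γ G) := by
  ext j
  rcases j with _ | j
  · simp [Hm_coeff]
  · rw [Hm_coeff, coeff_X_mul, coeff_X_mul, coeff_derivative, coeff_derivative, Hm_coeff, mul_assoc]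

noncomputable def Lam (γ : ℕ → ℝ) : ℝ[X] →ₗ[ℝ] ℝ := leval 1 ∘ₗ Hm γ

lemma Lam_apply (γ : ℕ → ℝ) (G : ℝ[X]) : Lam γ G = (Hm γ G).eval 1 := by
  simp [Lam, leval_apply]

noncomputable def Lam2 (γ : ℕ → ℝ) : ℝ[X] →ₗ[ℝ] ℝ := Lam γ ∘ₗ LinearMap.mulLeft ℝ (X ^ 2)

lemma Lam2_apply (γ : ℕ → ℝ) (G : ℝ[X]) : Lam2 γ G = Lam γ (X ^ 2 * G) := rfl

lemma Lam_comp (γ : ℕ → ℝ) (G : ℝ[X]) (a : ℝ) : Lam γ (G.comp (C a * X)) = (Hm γ G).eval a := by
  rw [Lam_apply, Hm_comp, eval_comp]; simp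

/-- `γ` preserves real-rootedness of polynomials of degree at most `n` without linear term. -/
def Pres (n : ℕ) (γ : ℕ → ℝ) : Prop :=
  ∀ G : ℝ[X], G.natDegree ≤ n → G.coeff 1 = 0 → G.Splits → (Hm γ G).Splits

noncomputable def G0 (n : ℕ) : ℝ[X] := (1 + X) ^ (n - 1) * (1 - C ((n - 1 : ℕ) : ℝ) * X)

lemma natDegree_lin (p : ℝ × ℝ) : (lin p).natDegree ≤ 1 := by
  unfold lin; compute_degree

lemma splits_lin (p : ℝ × ℝ) : (lin p).Splits := Splits.of_natDegree_le_one (natDegree_lin p)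

lemma natDegree_prod_lin (s : Multiset (ℝ × ℝ)) :
    (s.map lin).prod.natDegree ≤ Multiset.card s := by
  induction s using Multiset.induction_on with
  | empty => simp
  | cons a s ih =>
    rw [Multiset.map_cons, Multiset.prod_cons, Multiset.card_cons]
    have := natDegree_lin a
    exact natDegree_mul_le.trans (by omega)

lemma splits_prod_lin (s : Multiset (ℝ × ℝ)) : (s.map lin).prod.Splits := by
  refine Splits.multisetProd (fun f hf => ?_)
  obtain ⟨p, -, rfl⟩ := Multiset.mem_map.1 hf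
  exact splits_lin p

lemma lin_ne_zero {p : ℝ × ℝ} (hp : p ≠ 0) : lin p ≠ 0 := by
  intro h
  apply hp
  have h0 := congrArg (fun f => coeff f 0) h
  have h1 := congrArg (fun f => coeff f 1) h
  simp [lin, coeff_C] at h0 h1
  exact Prod.ext h0 h1

lemma natDegree_G0 {n : ℕ} (hn : 1 ≤ n) : (G0 n).natDegree ≤ n := by
  unfold G0
  refine natDegree_mul_le.trans ?_
  have h1 : ((1 + X : ℝ[X]) ^ (n - 1)).natDegree ≤ (n - 1) * 1 :=
    natDegree_pow_le_of_le _ (by compute_degree)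
  have h2 : (1 - C ((n - 1 : ℕ) : ℝ) * X : ℝ[X]).natDegree ≤ 1 := by compute_degree
  omega

lemma G0_coeff_zero (n : ℕ) : (G0 n).coeff 0 = 1 := by
  rw [coeff_zero_eq_eval_zero]; simp [G0]

lemma X_mul_derivative_G0 (m : ℕ) : X * derivative (G0 (m + 2)) =
    C (-(((m : ℝ) + 2) * ((m : ℝ) + 1))) * (X ^ 2 * (1 + X) ^ m) := by
  simp only [G0, show m + 2 - 1 = m + 1 from rfl, derivative_mul, derivative_pow_succ,
    derivative_add, derivative_one, derivative_X, derivative_sub, derivative_C, zero_add, mul_one,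
    zero_mul, zero_sub, map_neg, map_mul, map_add, map_natCast, map_ofNat, map_one, Nat.cast_add,
    Nat.cast_one, derivative_natCast, add_zero]
  ring

lemma quad_splits (a b δ : ℝ) (h : 0 ≤ (a - b) ^ 2 + 4 * δ) :
    (lin (1, a) * lin (1, b) - C δ * X ^ 2).Splits := by
  have hr := Real.sq_sqrt h
  set r := √((a - b) ^ 2 + 4 * δ)
  have e1 : (a + b + r) / 2 + (a + b - r) / 2 = a + b := by ring
  have e2 : (a + b + r) / 2 * ((a + b - r) / 2) = a * b - δ := by linear_combination (-1 / 4) * hr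
  have : lin (1, a) * lin (1, b) - C δ * X ^ 2 =
      lin (1, (a + b + r) / 2) * lin (1, (a + b - r) / 2) := by
    generalize (a + b + r) / 2 = α at *
    generalize (a + b - r) / 2 = β at *
    have f1 : (C α + C β : ℝ[X]) = C a + C b := by rw [← map_add, ← map_add, e1]
    have f2 : (C α * C β : ℝ[X]) = C a * C b - C δ := by rw [← map_mul, ← map_mul, ← map_sub, e2]
    simp only [lin, map_one]
    linear_combination (-X) * f1 - X ^ 2 * f2
  rw [this]
  exact (splits_lin _).mul (splits_lin _)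

section

variable {n : ℕ} {γ : ℕ → ℝ}

lemma Hm_ne_zero (hγ : ∀ j ≤ n, j ≠ 1 → γ j ≠ 0) {G : ℝ[X]} (hd : G.natDegree ≤ n)
    (h1 : G.coeff 1 = 0) (h0 : G ≠ 0) : Hm γ G ≠ 0 := by
  intro h
  have := Hm_coeff γ G G.natDegree
  rw [h, coeff_zero] at this
  have h2 : G.coeff G.natDegree ≠ 0 := leadingCoeff_ne_zero.2 h0
  refine mul_ne_zero (hγ _ hd ?_) h2 this.symm
  intro h3
  rw [h3] at h2
  exact h2 h1

lemma pert (hP : Pres n γ) {G Y : ℝ[X]} (hd : G.natDegree ≤ n) (h1 : G.coeff 1 = 0)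
    (hY : Y.natDegree ≤ n) (hY1 : Y.coeff 1 = 0) (h0 : Hm γ G ≠ 0) (hH : (Hm γ G).eval 1 = 0)
    (hH' : (derivative (Hm γ G)).eval 1 = 0) {ε : ℝ} (hε : 0 < ε)
    (hs : ∀ δ, 0 < δ → δ < ε → (G - C δ * Y).Splits) (hL : Lam γ Y ≠ 0) :
    0 < Lam γ Y * (derivative (derivative (Hm γ G))).eval 1 := by
  rw [Lam_apply] at hL ⊢
  refine pencil h0 hH hH' hε (fun δ h2 h3 => ?_) hL
  rw [← Hm_C_mul, ← map_sub]
  refine hP _ ?_ ?_ (hs δ h2 h3)
  · exact (natDegree_sub_le _ _).trans (max_le hd ((natDegree_C_mul_le _ _).trans hY))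
  · rw [coeff_sub, coeff_C_mul, h1, hY1]; simp

lemma pert2 (hP : Pres n γ) {G Y : ℝ[X]} (hd : G.natDegree ≤ n) (h1 : G.coeff 1 = 0)
    (hY : Y.natDegree ≤ n) (hY1 : Y.coeff 1 = 0) (h0 : Hm γ G ≠ 0) (hH : (Hm γ G).eval 1 = 0)
    (hH' : (derivative (Hm γ G)).eval 1 = 0) {ε : ℝ} (hε : 0 < ε)
    (hs : ∀ δ, -ε < δ → δ < ε → (G - C δ * Y).Splits) : Lam γ Y = 0 := by
  by_contra hL
  have h2 := pert hP hd h1 hY hY1 h0 hH hH' hε (fun δ h2 h3 => hs δ (by linarith) h3) hL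
  have h3 := pert (Y := -Y) hP hd h1 (by rwa [natDegree_neg]) (by rw [coeff_neg, hY1, neg_zero])
    h0 hH hH' hε (fun δ h2 h3 => by
      have := hs (-δ) (by linarith) (by linarith)
      rwa [map_neg, neg_mul, ← mul_neg] at this) (by rw [map_neg]; exact neg_ne_zero.2 hL)
  rw [map_neg] at h3
  linarith

lemma F_ne_zero (hγ : ∀ j ≤ n, j ≠ 1 → γ j ≠ 0) : Hm γ (G0 n) ≠ 0 := by
  intro h
  have := Hm_coeff γ (G0 n) 0
  rw [h, G0_coeff_zero, coeff_zero, mul_one] at this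
  exact hγ 0 (Nat.zero_le _) (by norm_num) this.symm

lemma F_simple (hn : 1 ≤ n) (hγ : ∀ j ≤ n, j ≠ 1 → γ j ≠ 0)
    (hF : n ≤ (Hm γ (G0 n)).roots.toFinset.card) {a : ℝ} (ha : (Hm γ (G0 n)).eval a = 0)
    (ha' : (derivative (Hm γ (G0 n))).eval a = 0) : False := by
  classical
  have h0 := F_ne_zero hγ
  have h1 : Multiset.card (Hm γ (G0 n)).roots ≤ n :=
    (card_roots' _).trans ((Hm_natDegree_le _ _).trans (natDegree_G0 hn))
  have h2 := Multiset.toFinset_card_le (Hm γ (G0 n)).roots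
  have h3 : (Hm γ (G0 n)).roots.Nodup :=
    Multiset.toFinset_card_eq_card_iff_nodup.1 (by omega)
  have h4 := Multiset.nodup_iff_count_le_one.1 h3 a
  rw [count_roots] at h4
  have h5 := (one_lt_rootMultiplicity_iff_isRoot h0).2 ⟨ha, ha'⟩
  omega

lemma strict_Lam2 {m : ℕ} (hm : 1 ≤ m)
    (hF : m + 2 ≤ (Hm γ (G0 (m + 2))).roots.toFinset.card) : Strict m (Lam2 γ) := by
  classical
  have hdet : det ((1 : ℝ), (0 : ℝ)) (0, 1) ≠ 0 := by simp [det]
  set F := Hm γ (G0 (m + 2)) with hFdef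
  set κ := kap (Lam2 γ) m (1, 0) (0, 1) with hκ
  set c : ℝ := -(((m : ℝ) + 2) * ((m : ℝ) + 1)) with hc
  have hc0 : c ≠ 0 := by rw [hc]; exact neg_ne_zero.2 (by positivity)
  have h1 : X * derivative F = X * (C c * (X * κ)) := by
    rw [hFdef, ← Hm_X_mul_derivative, X_mul_derivative_G0, Hm_C_mul]
    apply Polynomial.funext
    intro w
    rw [eval_mul, ← Lam_comp]
    have : (X ^ 2 * (1 + X) ^ m : ℝ[X]).comp (C w * X) =
        (w ^ 2) • (X ^ 2 * lin (((1 : ℝ), (0 : ℝ)) + w • ((0 : ℝ), (1 : ℝ))) ^ m) := by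
      simp only [lin, mul_comp, pow_comp, X_comp, add_comp, one_comp, smul_eq_C_mul, map_pow]
      simp only [Prod.smul_mk, smul_eq_mul, mul_zero, mul_one, Prod.mk_add_mk, add_zero, zero_add,
        map_one]
      ring
    rw [this, map_smul, ← Lam2_apply, ← kap_eval]
    simp only [eval_mul, eval_X, eval_C, smul_eq_mul, ← hκ, ← hc]
    ring
  have h2 : derivative F = C c * (X * κ) := mul_left_cancel₀ X_ne_zero h1
  have h3 := card_roots_toFinset_le_derivative F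
  have hκ0 : κ ≠ 0 := by
    intro h
    rw [h2, h] at h3
    simp at h3
    omega
  rw [h2, roots_C_mul _ hc0, roots_mul (mul_ne_zero X_ne_zero hκ0), roots_X, Multiset.toFinset_add]
    at h3
  have h4 := Finset.card_union_le ({0} : Multiset ℝ).toFinset κ.roots.toFinset
  simp only [Multiset.toFinset_singleton, Finset.card_singleton] at h3 h4
  exact strict_of_poly hm hdet hκ0 (Or.inl (by rw [← hκ]; omega))

lemma coeff_one_X_sq_mul (Q : ℝ[X]) : (X ^ 2 * Q).coeff 1 = 0 := by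
  rw [coeff_X_pow_mul']; simp

lemma natDegree_X_sq_mul {Q : ℝ[X]} {m : ℕ} (h : Q.natDegree ≤ m) :
    (X ^ 2 * Q).natDegree ≤ m + 2 := by
  refine natDegree_mul_le.trans ?_
  rw [natDegree_X_pow]; omega

lemma trich (t : Multiset ℝ) (ht : t ≠ 0) :
    (∃ a b c t', a ≠ b ∧ b ≠ c ∧ a ≠ c ∧ t = a ::ₘ b ::ₘ c ::ₘ t') ∨
    (∃ a b t', a ≠ b ∧ t = a ::ₘ a ::ₘ b ::ₘ b ::ₘ t') ∨
    (∃ a b, t = b ::ₘ Multiset.replicate (Multiset.card t - 1) a) := by
  classical
  have hsingle : ∀ a b : ℝ, b ∈ t → (∀ x ∈ t.erase b, x = a) →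
      t = b ::ₘ Multiset.replicate (Multiset.card t - 1) a := by
    intro a b hb h
    have h1 : t.erase b = Multiset.replicate (Multiset.card t - 1) a := by
      rw [Multiset.eq_replicate]
      exact ⟨by rw [Multiset.card_erase_of_mem hb]; rfl, h⟩
    rw [← h1, Multiset.cons_erase hb]
  obtain ⟨a, ha⟩ := Multiset.exists_mem_of_ne_zero ht
  by_cases h1 : ∀ x ∈ t, x = a
  · exact Or.inr (Or.inr ⟨a, a, hsingle a a ha (fun x hx => h1 x (Multiset.mem_of_mem_erase hx))⟩)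
  push Not at h1
  obtain ⟨b, hb, hba⟩ := h1
  by_cases h2 : ∃ c ∈ t, c ≠ a ∧ c ≠ b
  · obtain ⟨c, hc, hca, hcb⟩ := h2
    left
    obtain ⟨t1, rfl⟩ := Multiset.exists_cons_of_mem ha
    obtain ⟨t2, rfl⟩ := Multiset.exists_cons_of_mem ((Multiset.mem_cons.1 hb).resolve_left hba)
    obtain ⟨t3, rfl⟩ := Multiset.exists_cons_of_mem
      ((Multiset.mem_cons.1 ((Multiset.mem_cons.1 hc).resolve_left hca)).resolve_left hcb)
    exact ⟨a, b, c, t3, hba.symm, hcb.symm, hca.symm, rfl⟩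
  push Not at h2
  right
  by_cases h3 : b ∈ t.erase b
  · by_cases h4 : a ∈ t.erase a
    · left
      obtain ⟨t1, rfl⟩ := Multiset.exists_cons_of_mem ha
      rw [Multiset.erase_cons_head] at h4
      obtain ⟨t2, rfl⟩ := Multiset.exists_cons_of_mem h4
      obtain ⟨t3, rfl⟩ := Multiset.exists_cons_of_mem
        ((Multiset.mem_cons.1 ((Multiset.mem_cons.1 hb).resolve_left hba)).resolve_left hba)
      rw [Multiset.erase_cons_tail _ hba.symm, Multiset.erase_cons_tail _ hba.symm,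
        Multiset.erase_cons_head] at h3
      obtain ⟨t4, rfl⟩ := Multiset.exists_cons_of_mem
        ((Multiset.mem_cons.1 ((Multiset.mem_cons.1 h3).resolve_left hba)).resolve_left hba)
      exact ⟨a, b, t4, hba.symm, rfl⟩
    · right
      refine ⟨b, a, hsingle b a ha (fun x hx => ?_)⟩
      refine h2 x (Multiset.mem_of_mem_erase hx) ?_
      rintro rfl; exact h4 hx
  · right
    refine ⟨a, b, hsingle a b hb (fun x hx => ?_)⟩
    by_contra hxa
    have := h2 x (Multiset.mem_of_mem_erase hx) hxa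
    subst this; exact h3 hx

end

end Pool.Agent.H476Z.ZS
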