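import Pool.Agent.H476Z.ZS.Key

/-! The key step, concluded. -/

open Polynomial

set_option maxHeartbeats 400000

namespace Pool.Agent.H476Z.ZS

variable {n : ℕ} {γ : ℕ → ℝ}

/-- The linear polynomial `1 + z X`. -/
noncomputable def l1 (z : ℝ) : ℝ[X] := lin (1, z)

lemma prod_l1 (t : Multiset ℝ) :
    (t.map l1).prod = ((t.map (fun z => ((1 : ℝ), z))).map lin).prod := by
  rw [Multiset.map_map]; rfl

lemma natDegree_prod_l1 (t : Multiset ℝ) : (t.map l1).prod.natDegree ≤ Multiset.card t := by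
  rw [prod_l1]; simpa using natDegree_prod_lin (t.map (fun z => ((1 : ℝ), z)))

lemma splits_prod_l1 (t : Multiset ℝ) : (t.map l1).prod.Splits := by
  rw [prod_l1]; exact splits_prod_lin _

lemma prod_l1_ne_zero (t : Multiset ℝ) : (t.map l1).prod ≠ 0 := by
  refine Multiset.prod_ne_zero (fun h => ?_)
  obtain ⟨z, -, hz⟩ := Multiset.mem_map.1 h
  exact lin_ne_zero (by simp) hz

lemma strict_l1 {N : ℕ} (hN : 1 ≤ N) (t : Multiset ℝ) {Λ : ℝ[X] →ₗ[ℝ] ℝ}
    (hS : Strict (N + Multiset.card t) Λ) :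
    Strict N (Λ ∘ₗ LinearMap.mulLeft ℝ (t.map l1).prod) := by
  rw [prod_l1]
  refine Strict.polar_prod hN _ ?_ (by simpa using hS)
  intro q hq
  obtain ⟨z, -, rfl⟩ := Multiset.mem_map.1 hq
  simp

lemma move_ne (hγ : ∀ j ≤ n, j ≠ 1 → γ j ≠ 0) (hP : Pres n γ) {a b : ℝ} (hab : a ≠ b)
    (t : Multiset ℝ) (hc : Multiset.card t + 2 = n) {G : ℝ[X]}
    (hG : G = ((a ::ₘ b ::ₘ t).map l1).prod) (h1 : G.coeff 1 = 0) (hH : (Hm γ G).eval 1 = 0)
    (hH' : (derivative (Hm γ G)).eval 1 = 0) : Lam2 γ (t.map l1).prod = 0 := by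
  have hd : G.natDegree ≤ n := by
    rw [hG]; refine (natDegree_prod_l1 _).trans ?_; simp [hc]
  have h0 : G ≠ 0 := hG ▸ prod_l1_ne_zero _
  have hε : 0 < (a - b) ^ 2 / 4 := by have := sub_ne_zero.2 hab; positivity
  rw [Lam2_apply]
  refine pert2 hP hd h1 (hc ▸ natDegree_X_sq_mul (natDegree_prod_l1 t)) (coeff_one_X_sq_mul _)
    (Hm_ne_zero hγ hd h1 h0) hH hH' hε (fun δ h2 _ => ?_)
  have : G - C δ * (X ^ 2 * (t.map l1).prod) =
      (lin (1, a) * lin (1, b) - C δ * X ^ 2) * (t.map l1).prod := by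
    rw [hG]; simp only [Multiset.map_cons, Multiset.prod_cons, l1]; ring
  rw [this]
  exact (quad_splits a b δ (by linarith)).mul (splits_prod_l1 t)

lemma move_eq (hγ : ∀ j ≤ n, j ≠ 1 → γ j ≠ 0) (hP : Pres n γ) (a : ℝ)
    (t : Multiset ℝ) (hc : Multiset.card t + 2 = n) {G : ℝ[X]}
    (hG : G = ((a ::ₘ a ::ₘ t).map l1).prod) (h1 : G.coeff 1 = 0) (hH : (Hm γ G).eval 1 = 0)
    (hH' : (derivative (Hm γ G)).eval 1 = 0) (hL : Lam2 γ (t.map l1).prod ≠ 0) :
    0 < Lam2 γ (t.map l1).prod * (derivative (derivative (Hm γ G))).eval 1 := by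
  have hd : G.natDegree ≤ n := by
    rw [hG]; refine (natDegree_prod_l1 _).trans ?_; simp [hc]
  have h0 : G ≠ 0 := hG ▸ prod_l1_ne_zero _
  rw [Lam2_apply] at hL ⊢
  refine pert hP hd h1 (hc ▸ natDegree_X_sq_mul (natDegree_prod_l1 t)) (coeff_one_X_sq_mul _)
    (Hm_ne_zero hγ hd h1 h0) hH hH' one_pos (fun δ h2 _ => ?_) hL
  have : G - C δ * (X ^ 2 * (t.map l1).prod) =
      (lin (1, a) * lin (1, a) - C δ * X ^ 2) * (t.map l1).prod := by
    rw [hG]; simp only [Multiset.map_cons, Multiset.prod_cons, l1]; ring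
  rw [this]
  exact (quad_splits a a δ (by nlinarith)).mul (splits_prod_l1 t)

lemma key_fin (hn : 1 ≤ n) (hγ : ∀ j ≤ n, j ≠ 1 → γ j ≠ 0) (hP : Pres n γ)
    (hF : n ≤ (Hm γ (G0 n)).roots.toFinset.card) (t : Multiset ℝ) (hc : Multiset.card t = n)
    {G : ℝ[X]} (hG : G = (t.map l1).prod) (h1 : G.coeff 1 = 0) (hH : (Hm γ G).eval 1 = 0)
    (hH' : (derivative (Hm γ G)).eval 1 = 0) : False := by
  have ht : t ≠ 0 := by rintro rfl; simp at hc; omega
  rcases trich t ht with ⟨a, b, c, t', hab, hbc, hac, rfl⟩ | ⟨a, b, t', hab, rfl⟩ | ⟨a, b, ht'⟩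
  · simp only [Multiset.card_cons] at hc
    have e1 := move_ne hγ hP hab (c ::ₘ t') (by simp; omega) hG h1 hH hH'
    have e2 := move_ne hγ hP hbc (a ::ₘ t') (by simp; omega) (G := G)
      (by rw [hG]; simp only [Multiset.map_cons, Multiset.prod_cons]; ring) h1 hH hH'
    have hS : Strict (1 + Multiset.card t') (Lam2 γ) := by
      refine strict_Lam2 (by omega) ?_
      rw [show 1 + Multiset.card t' + 2 = n by omega]; exact hF
    refine (strict_l1 le_rfl t' hS).one (p := (1, a)) (q := (1, c)) ?_ ?_ ?_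
    · simp only [det]; intro h; apply hac; linarith
    · rw [← e2]; simp only [LinearMap.comp_apply, LinearMap.mulLeft_apply, Multiset.map_cons,
        Multiset.prod_cons, l1]; rw [mul_comm]
    · rw [← e1]; simp only [LinearMap.comp_apply, LinearMap.mulLeft_apply, Multiset.map_cons,
        Multiset.prod_cons, l1]; rw [mul_comm]
  · simp only [Multiset.card_cons] at hc
    have e1 := move_ne hγ hP hab (a ::ₘ b ::ₘ t') (by simp; omega) (G := G)
      (by rw [hG]; simp only [Multiset.map_cons, Multiset.prod_cons]; ring) h1 hH hH'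
    have e2 := move_eq hγ hP a (b ::ₘ b ::ₘ t') (by simp; omega) hG h1 hH hH'
    have e3 := move_eq hγ hP b (a ::ₘ a ::ₘ t') (by simp; omega) (G := G)
      (by rw [hG]; simp only [Multiset.map_cons, Multiset.prod_cons]; ring) h1 hH hH'
    have hS : Strict (2 + Multiset.card t') (Lam2 γ) := by
      refine strict_Lam2 (by omega) ?_
      rw [show 2 + Multiset.card t' + 2 = n by omega]; exact hF
    have h5 := (strict_l1 (by norm_num) t' hS).two (p := (1, a)) (q := (1, b))
      (by simp only [det]; intro h; apply hab; linarith) (by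
        rw [← e1]; simp only [LinearMap.comp_apply, LinearMap.mulLeft_apply, Multiset.map_cons,
          Multiset.prod_cons, l1]; congr 1; ring)
    have f2 : (Lam2 γ ∘ₗ LinearMap.mulLeft ℝ (t'.map l1).prod) (lin (1, b) * lin (1, b)) =
        Lam2 γ ((b ::ₘ b ::ₘ t').map l1).prod := by
      simp only [LinearMap.comp_apply, LinearMap.mulLeft_apply, Multiset.map_cons,
        Multiset.prod_cons, l1]; congr 1; ring
    have f3 : (Lam2 γ ∘ₗ LinearMap.mulLeft ℝ (t'.map l1).prod) (lin (1, a) * lin (1, a)) =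
        Lam2 γ ((a ::ₘ a ::ₘ t').map l1).prod := by
      simp only [LinearMap.comp_apply, LinearMap.mulLeft_apply, Multiset.map_cons,
        Multiset.prod_cons, l1]; congr 1; ring
    rw [f2, f3] at h5
    have g2 := e2 (by intro h; rw [h] at h5; simp at h5)
    have g3 := e3 (by intro h; rw [h] at h5; simp at h5)
    generalize Lam2 γ ((b ::ₘ b ::ₘ t').map l1).prod = A at *
    generalize Lam2 γ ((a ::ₘ a ::ₘ t').map l1).prod = B at *
    generalize (derivative (derivative (Hm γ G))).eval 1 = D at *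
    have := mul_pos g2 g3
    nlinarith [sq_nonneg D]
  · rw [hc] at ht'
    have hG' : G = l1 b * l1 a ^ (n - 1) := by
      rw [hG, ht']; simp
    have hb : b = -(((n - 1 : ℕ) : ℝ) * a) := by
      have h2 : (derivative G).coeff 0 = 0 := by rw [coeff_derivative, zero_add, h1, zero_mul]
      rw [coeff_zero_eq_eval_zero, hG'] at h2
      simp [l1, lin, derivative_pow] at h2
      linarith
    have hG2 : G = (G0 n).comp (C a * X) := by
      rw [hG', hb]
      simp only [G0, l1, lin, mul_comp, pow_comp, add_comp, sub_comp, one_comp, X_comp, C_comp,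
        map_one, map_neg, map_mul]
      ring
    rw [hG2, Hm_comp] at hH hH'
    rw [derivative_comp] at hH'
    simp only [eval_comp, eval_mul, eval_C, eval_X, mul_one, derivative_C_mul, derivative_X]
      at hH hH'
    rcases mul_eq_zero.1 hH' with h | h
    · rw [h, ← coeff_zero_eq_eval_zero, Hm_coeff, G0_coeff_zero, mul_one] at hH
      exact hγ 0 (Nat.zero_le _) (by norm_num) hH
    · exact F_simple hn hγ hF hH h

lemma eval_zero_prod_lin (s : Multiset (ℝ × ℝ)) :
    (s.map lin).prod.eval 0 = (s.map Prod.fst).prod := by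
  induction s using Multiset.induction_on with
  | empty => simp
  | cons a s ih => simp only [Multiset.map_cons, Multiset.prod_cons, eval_mul, ih]; simp [lin]

lemma key (hn : 1 ≤ n) (hγ : ∀ j ≤ n, j ≠ 1 → γ j ≠ 0) (hP : Pres n γ)
    (hF : n ≤ (Hm γ (G0 n)).roots.toFinset.card) (s : Multiset (ℝ × ℝ))
    (hc : Multiset.card s = n) (hs : ∀ p ∈ s, p ≠ 0)
    {G : ℝ[X]} (hG : G = (s.map lin).prod) (h1 : G.coeff 1 = 0) (hH : (Hm γ G).eval 1 = 0)
    (hH' : (derivative (Hm γ G)).eval 1 = 0) : False := by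
  by_cases hfin : ∀ p ∈ s, p.1 ≠ 0
  · have hc0 : (s.map Prod.fst).prod ≠ 0 := by
      refine Multiset.prod_ne_zero (fun h => ?_)
      obtain ⟨p, hp, hp0⟩ := Multiset.mem_map.1 h
      exact hfin p hp hp0
    have hG2 : G = C (s.map Prod.fst).prod * ((s.map (fun p => p.2 / p.1)).map l1).prod := by
      rw [hG, map_multiset_prod, Multiset.map_map, Multiset.map_map, ← Multiset.prod_map_mul]
      refine congrArg _ (Multiset.map_congr rfl (fun p hp => ?_))
      have : p = p.1 • ((1 : ℝ), p.2 / p.1) := by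
        have := hfin p hp
        ext <;> simp
        field_simp
      conv_lhs => rw [this, lin_smul]
      rfl
    have hc' : Multiset.card (s.map (fun p => p.2 / p.1)) = n := by simpa using hc
    generalize s.map (fun p => p.2 / p.1) = t at hG2 hc'
    generalize (s.map Prod.fst).prod = c at hG2 hc0
    have g1 : (t.map l1).prod.coeff 1 = 0 := by
      rw [hG2, coeff_C_mul] at h1
      exact (mul_eq_zero.1 h1).resolve_left hc0
    have g2 : (Hm γ (t.map l1).prod).eval 1 = 0 := by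
      rw [hG2, Hm_C_mul, eval_mul, eval_C] at hH
      exact (mul_eq_zero.1 hH).resolve_left hc0
    have g3 : (derivative (Hm γ (t.map l1).prod)).eval 1 = 0 := by
      rw [hG2, Hm_C_mul, derivative_C_mul, eval_mul, eval_C] at hH'
      exact (mul_eq_zero.1 hH').resolve_left hc0
    exact key_fin hn hγ hP hF t hc' rfl g1 g2 g3
  push Not at hfin
  obtain ⟨p, hp, hp1⟩ := hfin
  have hlin : ∀ p : ℝ × ℝ, p ≠ 0 → p.1 = 0 → p.2 ≠ 0 ∧ lin p = C p.2 * X := by
    intro p hp hp1
    refine ⟨fun h => hp (Prod.ext hp1 h), by simp [lin, hp1]⟩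
  obtain ⟨s1, rfl⟩ := Multiset.exists_cons_of_mem hp
  obtain ⟨hp2, hp3⟩ := hlin p (hs p hp) hp1
  have h2 : (s1.map Prod.fst).prod = 0 := by
    rw [hG, Multiset.map_cons, Multiset.prod_cons, hp3, mul_assoc, coeff_C_mul, coeff_X_mul,
      coeff_zero_eq_eval_zero, eval_zero_prod_lin] at h1
    exact (mul_eq_zero.1 h1).resolve_left hp2
  obtain ⟨q, hq, hq1⟩ := Multiset.mem_map.1 (Multiset.prod_eq_zero_iff.1 h2)
  obtain ⟨s2, rfl⟩ := Multiset.exists_cons_of_mem hq
  obtain ⟨hq2, hq3⟩ := hlin q (hs q (by simp)) hq1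
  simp only [Multiset.card_cons] at hc
  have hc0 : p.2 * q.2 ≠ 0 := mul_ne_zero hp2 hq2
  have hG2 : G = C (p.2 * q.2) * (X ^ 2 * (s2.map lin).prod) := by
    rw [hG]; simp only [Multiset.map_cons, Multiset.prod_cons, hp3, hq3, map_mul]; ring
  replace hH : (Hm γ (X ^ 2 * (s2.map lin).prod)).eval 1 = 0 := by
    rw [hG2, Hm_C_mul, eval_mul, eval_C] at hH
    exact (mul_eq_zero.1 hH).resolve_left hc0
  replace hH' : (derivative (Hm γ (X ^ 2 * (s2.map lin).prod))).eval 1 = 0 := by
    rw [hG2, Hm_C_mul, derivative_C_mul, eval_mul, eval_C] at hH'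
    exact (mul_eq_zero.1 hH').resolve_left hc0
  rcases eq_or_ne s2 0 with rfl | hs2
  · have h3 : Hm γ (X ^ 2) = C (γ 2) * X ^ 2 := by
      ext j
      rw [Hm_coeff, coeff_C_mul, coeff_X_pow]
      split_ifs with h
      · rw [h]
      · simp
    simp only [Multiset.map_zero, Multiset.prod_zero, mul_one, h3, eval_mul, eval_C, eval_pow,
      eval_X, one_pow] at hH
    exact hγ 2 (by omega) (by norm_num) hH
  obtain ⟨r, hr⟩ := Multiset.exists_mem_of_ne_zero hs2
  obtain ⟨s3, rfl⟩ := Multiset.exists_cons_of_mem hr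
  simp only [Multiset.card_cons] at hc
  have hr0 : r ≠ 0 := hs r (by simp)
  have hdet : det (r.2, -r.1) r ≠ 0 := by
    intro h
    apply hr0
    simp only [det] at h
    have h1 : r.1 = 0 := by nlinarith [sq_nonneg r.1, sq_nonneg r.2]
    have h2 : r.2 = 0 := by nlinarith [sq_nonneg r.1, sq_nonneg r.2]
    exact Prod.ext h1 h2
  set r' : ℝ × ℝ := (r.2, -r.1)
  have hS : Strict (1 + Multiset.card s3) (Lam2 γ) := by
    refine strict_Lam2 (by omega) ?_
    rw [show 1 + Multiset.card s3 + 2 = n by omega]; exact hF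
  have hdeg : ∀ z : ℝ × ℝ, (X ^ 2 * ((z ::ₘ s3).map lin).prod).natDegree ≤ n := by
    intro z
    refine (natDegree_X_sq_mul (natDegree_prod_lin _)).trans ?_
    simp only [Multiset.card_cons]; omega
  have hne : (X ^ 2 * ((r ::ₘ s3).map lin).prod : ℝ[X]) ≠ 0 := by
    refine mul_ne_zero (pow_ne_zero _ X_ne_zero) (Multiset.prod_ne_zero (fun h => ?_))
    obtain ⟨z, hz, hz0⟩ := Multiset.mem_map.1 h
    exact lin_ne_zero (hs z (Multiset.mem_cons_of_mem (Multiset.mem_cons_of_mem hz))) hz0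
  have e1 := pert2 hP (hdeg r) (coeff_one_X_sq_mul _) (hdeg r') (coeff_one_X_sq_mul _)
    (Hm_ne_zero hγ (hdeg r) (coeff_one_X_sq_mul _) hne) hH hH' one_pos (fun δ _ _ => by
      have : X ^ 2 * ((r ::ₘ s3).map lin).prod - C δ * (X ^ 2 * ((r' ::ₘ s3).map lin).prod) =
          X ^ 2 * (((r + (-δ) • r') ::ₘ s3).map lin).prod := by
        simp only [Multiset.map_cons, Multiset.prod_cons, lin_add_smul, map_neg]; ring
      rw [this]
      exact (Splits.X_pow 2).mul (splits_prod_lin _))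
  refine (Strict.polar_prod le_rfl s3 (fun z hz => hs z (by simp [hz])) hS).one hdet ?_ ?_
  · rw [← e1, ← Lam2_apply]
    simp only [LinearMap.comp_apply, LinearMap.mulLeft_apply, Multiset.map_cons,
      Multiset.prod_cons]; rw [mul_comm]
  · rw [← hH, ← Lam_apply, ← Lam2_apply]
    simp only [LinearMap.comp_apply, LinearMap.mulLeft_apply, Multiset.map_cons,
      Multiset.prod_cons]; rw [mul_comm]

end Pool.Agent.H476Z.ZS
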